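import Mathlib

/-!
Even families of subsets (helper file): linear algebra over the field with two elements.
-/

set_option autoImplicit false

namespace Pool.Agent.R424.FD

theorem zmod_two_cast {σ : Type} [DecidableEq σ] (B : Finset σ) (f : σ → ZMod 2) :
    ∑ i ∈ B, f i = ((B.filter fun i => f i ≠ 0).card : ZMod 2) := by
  rw [← Finset.sum_boole]
  refine Finset.sum_congr rfl fun i _ => ?_
  generalize f i = a
  revert a
  decide

/-- the restriction of functions to a finite set -/
def restr {σ : Type} (A : Finset σ) : (σ → ZMod 2) →ₗ[ZMod 2] (A → ZMod 2) where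
  toFun v := fun i => v i
  map_add' _ _ := rfl
  map_smul' _ _ := rfl

/-- the sums over the classes -/
def sums {σ C : Type} [Fintype σ] [DecidableEq C] (c : σ → Option C) (Fr : Finset C) :
    (σ → ZMod 2) →ₗ[ZMod 2] (Fr → ZMod 2) where
  toFun v := fun k => ∑ i ∈ Finset.univ.filter fun i => c i = some (k : C), v i
  map_add' v w := by
    funext k
    simp only [Pi.add_apply]
    exact Finset.sum_add_distrib
  map_smul' a v := by
    funext k
    simp only [Pi.smul_apply, smul_eq_mul, RingHom.id_apply]
    rw [Finset.mul_sum]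

/-- Even families of subsets. If the complements of the sets `E l` are large, there are subsets `A l`
of the complements, not all empty, which are even on every class, such that every element lies in an
even number of them. -/
theorem evenSets {σ C : Type} [Fintype σ] [DecidableEq σ] [DecidableEq C] {L μ : ℕ}
    (c : σ → Option C) (Fr : Finset C) (O : Finset σ) (E : Fin (L + 1) → Finset σ)
    (hOE : ∀ l, O ⊆ E l) (hE : ∀ l, (E l).card ≤ μ)
    (h : (L + 1) * μ + L * Fr.card < L * Fintype.card σ) :
    ∃ A : Fin (L + 1) → Finset σ, (∃ l, (A l).Nonempty) ∧ (∀ l, ∀ i ∈ A l, i ∉ E l) ∧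
      (∀ l, ∀ k ∈ Fr, Even ((A l).filter fun i => c i = some k).card) ∧
      ∀ i, Even (Finset.univ.filter fun l => i ∈ A l).card := by
  classical
  let U : Submodule (ZMod 2) (σ → ZMod 2) := LinearMap.ker (LinearMap.prod (restr O) (sums c Fr))
  have hU : ∀ v : σ → ZMod 2, v ∈ U ↔ (∀ i ∈ O, v i = 0) ∧
      ∀ k ∈ Fr, ∑ i ∈ Finset.univ.filter (fun i => c i = some k), v i = 0 := by
    intro v
    have h0 : v ∈ U ↔ restr O v = 0 ∧ sums c Fr v = 0 := Prod.mk_eq_zero
    rw [h0]
    constructor
    · rintro ⟨h1, h2⟩
      exact ⟨fun i hi => congrFun h1 ⟨i, hi⟩, fun k hk => congrFun h2 ⟨k, hk⟩⟩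
    · rintro ⟨h1, h2⟩
      exact ⟨funext fun i => h1 i i.2, funext fun k => h2 k k.2⟩
  have hUdim : Fintype.card σ ≤ Module.finrank (ZMod 2) U + O.card + Fr.card := by
    have h1 := LinearMap.finrank_range_add_finrank_ker (LinearMap.prod (restr O) (sums c Fr))
    have h2 : Module.finrank (ZMod 2) (LinearMap.range (LinearMap.prod (restr O) (sums c Fr))) ≤
        O.card + Fr.card := by
      refine (Submodule.finrank_le _).trans ?_
      rw [Module.finrank_prod, Module.finrank_fintype_fun_eq_card,
        Module.finrank_fintype_fun_eq_card, Fintype.card_coe, Fintype.card_coe]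
    rw [Module.finrank_fintype_fun_eq_card] at h1
    change _ + Module.finrank (ZMod 2) U = _ at h1
    omega
  let W : Fin (L + 1) → Submodule (ZMod 2) U := fun l =>
    LinearMap.ker ((restr (E l \ O)).comp U.subtype)
  have hW : ∀ l (v : U), v ∈ W l ↔ ∀ i ∈ E l, (v : σ → ZMod 2) i = 0 := by
    intro l v
    simp only [W, LinearMap.mem_ker]
    constructor
    · intro h1 i hi
      by_cases hiO : i ∈ O
      · exact ((hU v).1 v.2).1 i hiO
      · exact congrFun h1 ⟨i, Finset.mem_sdiff.2 ⟨hi, hiO⟩⟩
    · intro h1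
      exact funext fun i => h1 i (Finset.mem_sdiff.1 i.2).1
  have hWdim : ∀ l, Module.finrank (ZMod 2) U + O.card ≤ Module.finrank (ZMod 2) (W l) + μ := by
    intro l
    have h1 := LinearMap.finrank_range_add_finrank_ker ((restr (E l \ O)).comp U.subtype)
    have h2 : Module.finrank (ZMod 2) (LinearMap.range ((restr (E l \ O)).comp U.subtype)) ≤
        (E l \ O).card := by
      refine (Submodule.finrank_le _).trans ?_
      rw [Module.finrank_fintype_fun_eq_card, Fintype.card_coe]
    have h3 : (E l \ O).card + O.card = (E l).card := Finset.card_sdiff_add_card_eq_card (hOE l)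
    have h4 := hE l
    change _ + Module.finrank (ZMod 2) (W l) = _ at h1
    omega
  have hO : O.card ≤ μ := (Finset.card_le_card (hOE 0)).trans (hE 0)
  let Φ : (∀ l, W l) →ₗ[ZMod 2] U := ∑ l, (W l).subtype.comp (LinearMap.proj l)
  have hΦ : ∀ w : (∀ l, W l), Φ w = ∑ l, (w l : U) := by
    intro w
    simp only [Φ, LinearMap.sum_apply, LinearMap.comp_apply, LinearMap.proj_apply,
      Submodule.subtype_apply]
  have hlt : Module.finrank (ZMod 2) U < Module.finrank (ZMod 2) (∀ l, W l) := by
    rw [Module.finrank_pi_fintype]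
    have h1 : (L + 1) * (Module.finrank (ZMod 2) U + O.card) ≤
        ∑ l : Fin (L + 1), Module.finrank (ZMod 2) (W l) + (L + 1) * μ := by
      have h2 := Finset.sum_le_sum (s := (Finset.univ : Finset (Fin (L + 1)))) fun l _ => hWdim l
      simp only [Finset.sum_add_distrib, Finset.sum_const, Finset.card_univ,
        Fintype.card_fin, smul_eq_mul] at h2
      rw [Nat.mul_add]
      exact h2
    have h3 : L * Fintype.card σ ≤ L * (Module.finrank (ZMod 2) U + O.card + Fr.card) :=
      Nat.mul_le_mul_left L hUdim
    by_contra hcon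
    push Not at hcon
    nlinarith
  have hker : LinearMap.ker Φ ≠ ⊥ := LinearMap.ker_ne_bot_of_finrank_lt hlt
  obtain ⟨w, hw, hw0⟩ := (Submodule.ne_bot_iff _).1 hker
  rw [LinearMap.mem_ker, hΦ] at hw
  let v : Fin (L + 1) → σ → ZMod 2 := fun l => ((w l : U) : σ → ZMod 2)
  have hv1 : ∀ l, ∀ i ∈ E l, v l i = 0 := fun l => (hW l _).1 (w l).2
  have hv2 : ∀ l, ∀ k ∈ Fr, ∑ i ∈ Finset.univ.filter (fun i => c i = some k), v l i = 0 := fun l =>
    ((hU _).1 (w l : U).2).2
  have hv3 : ∀ i, ∑ l, v l i = 0 := by
    intro i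
    have h1 := congrArg (fun u : U => (u : σ → ZMod 2) i) hw
    simp only [Submodule.coe_sum, Finset.sum_apply, Submodule.coe_zero, Pi.zero_apply] at h1
    exact h1
  have hv0 : ∃ l i, v l i ≠ 0 := by
    by_contra hcon
    push Not at hcon
    apply hw0
    funext l
    apply Subtype.ext
    apply Subtype.ext
    funext i
    exact hcon l i
  refine ⟨fun l => Finset.univ.filter fun i => v l i ≠ 0, ?_, ?_, ?_, ?_⟩
  · obtain ⟨l, i, hi⟩ := hv0
    exact ⟨l, i, Finset.mem_filter.2 ⟨Finset.mem_univ _, hi⟩⟩
  · intro l i hi hiE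
    exact (Finset.mem_filter.1 hi).2 (hv1 l i hiE)
  · intro l k hk
    have h1 := hv2 l k hk
    rw [zmod_two_cast, ZMod.natCast_eq_zero_iff_even] at h1
    rw [Finset.filter_filter] at h1 ⊢
    have h2 : (Finset.univ.filter fun i => v l i ≠ 0 ∧ c i = some k) =
        Finset.univ.filter fun i => c i = some k ∧ v l i ≠ 0 := by
      refine Finset.filter_congr fun i _ => ?_
      exact and_comm
    rw [h2]
    exact h1
  · intro i
    have h1 := hv3 i
    rw [zmod_two_cast, ZMod.natCast_eq_zero_iff_even] at h1
    have h2 : (Finset.univ.filter fun l => i ∈ Finset.univ.filter fun i => v l i ≠ 0) =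
        Finset.univ.filter fun l => v l i ≠ 0 := by
      refine Finset.filter_congr fun l _ => ?_
      simp
    rw [h2]
    exact h1

/-- A product over a set with an even number of elements is a square, if the products of two
elements are. -/
theorem isSquare_prod_even {σ M : Type} [DecidableEq σ] [CommMonoid M] (f : σ → M) :
    ∀ (N : ℕ) (A : Finset σ), A.card = N → Even N →
      (∀ i ∈ A, ∀ j ∈ A, i ≠ j → IsSquare (f i * f j)) → IsSquare (∏ i ∈ A, f i) := by
  intro N
  induction N using Nat.strong_induction_on with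
  | _ N ih =>
    intro A hA hN h
    rcases Nat.eq_zero_or_pos N with h0 | h0
    · rw [h0, Finset.card_eq_zero] at hA
      rw [hA, Finset.prod_empty]
      exact IsSquare.one
    · have h2 : 1 < A.card := by
        rcases hN with ⟨a, ha⟩
        omega
      obtain ⟨i, hi, j, hj, hij⟩ := Finset.one_lt_card.1 h2
      have hj' : j ∈ A.erase i := Finset.mem_erase.2 ⟨hij.symm, hj⟩
      rw [← Finset.mul_prod_erase A f hi, ← Finset.mul_prod_erase (A.erase i) f hj', ← mul_assoc]
      refine IsSquare.mul (h i hi j hj hij) ?_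
      have h3 : ((A.erase i).erase j).card = N - 2 := by
        rw [Finset.card_erase_of_mem hj', Finset.card_erase_of_mem hi]
        omega
      refine ih (N - 2) (by omega) _ h3 ?_ fun a ha b hb hab => h a ?_ b ?_ hab
      · rcases hN with ⟨a, ha⟩
        exact ⟨a - 1, by omega⟩
      · exact Finset.mem_of_mem_erase (Finset.mem_of_mem_erase ha)
      · exact Finset.mem_of_mem_erase (Finset.mem_of_mem_erase hb)

end Pool.Agent.R424.FD
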