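import Pool.Agent.TH526.ZL.K
import Pool.Agent.R424.FD.Even

/-!
The combinatorial core of the local criterion with `L + 1` places (helper file).
-/

set_option autoImplicit false

open Function UpperHalfPlane H294ZP MvPolynomial Pool.Agent.W466.ZC Pool.Agent.TH526.ZL

namespace Pool.Agent.R424.FD

/-- The exponents `e l i` at `L + 1` places are independent modulo squares and modulo the primes up
to `T`. -/
def Indep (L T : ℕ) {σ : Type} [DecidableEq σ] (e : Fin (L + 1) → σ → ℕ) : Prop :=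
  ∀ A : Fin (L + 1) → Finset σ, (∃ l, (A l).Nonempty) → (∀ l, Even (A l).card) →
    (∀ i, Even (Finset.univ.filter fun l => i ∈ A l).card) →
    ∀ q, 0 < q → (∀ p, p.Prime → p ∣ q → p ≤ T) → q ≤ T ^ (2 * ∑ l, (A l).card) →
      ¬ IsSquare (q * ∏ l, ∏ i ∈ A l, e l i)

theorem isSquare_cancel {a b : ℕ} (ha : 0 < a) (h1 : IsSquare a) (h2 : IsSquare (a * b)) :
    IsSquare b := by
  obtain ⟨f, rfl⟩ := h1
  obtain ⟨g, hg⟩ := h2
  have h3 : f ^ 2 ∣ g ^ 2 := ⟨b, by rw [sq, sq, ← hg]⟩
  have h4 : f ∣ g := (Nat.pow_dvd_pow_iff two_ne_zero).1 h3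
  obtain ⟨u, rfl⟩ := h4
  refine ⟨u, ?_⟩
  refine Nat.eq_of_mul_eq_mul_left ha ?_
  rw [hg]
  ring

/-- A sufficient condition for independence: different primes `p l i > T` such that `p l i` divides
`e l i` to an odd power and the other exponents to even powers. -/
theorem indep_of_primes {L T : ℕ} {σ : Type} [DecidableEq σ] (e : Fin (L + 1) → σ → ℕ)
    (he : ∀ l i, e l i ≠ 0) (p : Fin (L + 1) → σ → ℕ) (hp : ∀ l i, (p l i).Prime)
    (hpT : ∀ l i, T < p l i) (h1 : ∀ l i, Odd ((e l i).factorization (p l i)))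
    (h2 : ∀ l i l' i', (l', i') ≠ (l, i) → Even ((e l' i').factorization (p l i))) :
    Indep L T e := by
  classical
  rintro A ⟨l₀, i₀, hi₀⟩ - - q hq hqp - hsq
  have h3 : (q * ∏ l, ∏ i ∈ A l, e l i).factorization (p l₀ i₀) =
      ∑ l, ∑ i ∈ A l, (e l i).factorization (p l₀ i₀) := by
    rw [Nat.factorization_mul hq.ne' (Finset.prod_ne_zero_iff.2 fun l _ =>
      Finset.prod_ne_zero_iff.2 fun i _ => he l i)]
    have h4 : q.factorization (p l₀ i₀) = 0 := by
      refine Nat.factorization_eq_zero_of_not_dvd fun h => ?_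
      exact absurd (hqp _ (hp _ _) h) (not_le.2 (hpT _ _))
    rw [Finsupp.add_apply, h4, zero_add, Nat.factorization_prod fun l _ =>
      Finset.prod_ne_zero_iff.2 fun i _ => he l i, Finsupp.finsetSum_apply]
    refine Finset.sum_congr rfl fun l _ => ?_
    rw [Nat.factorization_prod fun i _ => he l i, Finsupp.finsetSum_apply]
  have h5 : Even ((q * ∏ l, ∏ i ∈ A l, e l i).factorization (p l₀ i₀)) := by
    obtain ⟨a, ha⟩ := hsq
    have h6 : q * ∏ l, ∏ i ∈ A l, e l i ≠ 0 := mul_ne_zero hq.ne'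
      (Finset.prod_ne_zero_iff.2 fun l _ => Finset.prod_ne_zero_iff.2 fun i _ => he l i)
    have h7 : a ≠ 0 := by
      rintro rfl
      exact h6 (by rw [ha])
    rw [ha, Nat.factorization_mul h7 h7, Finsupp.add_apply]
    exact ⟨_, rfl⟩
  rw [h3, Finset.sum_sigma', ← Finset.add_sum_erase _ _ (show
    (⟨l₀, i₀⟩ : (_ : Fin (L + 1)) × σ) ∈ Finset.univ.sigma A from
      Finset.mem_sigma.2 ⟨Finset.mem_univ _, hi₀⟩)] at h5
  have h8 : Even (∑ x ∈ (Finset.univ.sigma A).erase (⟨l₀, i₀⟩ : (_ : Fin (L + 1)) × σ),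
      (e x.1 x.2).factorization (p l₀ i₀)) := by
    refine Finset.even_sum _ fun x hx => h2 _ _ _ _ fun h => ?_
    have h9 := Finset.ne_of_mem_erase hx
    apply h9
    obtain ⟨x1, x2⟩ := x
    rw [Prod.mk.injEq] at h
    obtain ⟨rfl, rfl⟩ := h
    rfl
  have h9 := (Nat.even_add.1 h5).2 h8
  exact (Nat.not_even_iff_odd.2 (h1 l₀ i₀)) h9

/-- A family of subsets which is even on every class and on every coordinate gives a relation of the
exponents modulo squares. -/
theorem square_of_even {L T : ℕ} {σ C : Type} [Fintype σ] [DecidableEq σ] [DecidableEq C]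
    (c : σ → Option C) (Fr : Finset C) (d : σ → ℕ) (hd : ∀ i, 0 < d i)
    (e a : Fin (L + 1) → σ → ℕ) (A : Fin (L + 1) → Finset σ)
    (ha : ∀ l, ∀ i ∈ A l, 0 < a l i ∧ a l i ≤ T ^ 2)
    (hap : ∀ l, ∀ i ∈ A l, ∀ p, p.Prime → p ∣ a l i → p ≤ T)
    (hFr : ∀ l, ∀ i ∈ A l, ∃ k ∈ Fr, c i = some k)
    (hA : ∀ l, ∀ k ∈ Fr, Even ((A l).filter fun i => c i = some k).card)
    (hA' : ∀ i, Even (Finset.univ.filter fun l => i ∈ A l).card)
    (hsq : ∀ l, ∀ i ∈ A l, ∀ j ∈ A l, i ≠ j → c i = c j →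
      IsSquare (d i * d j * (e l i * e l j) * (a l i * a l j))) :
    (∀ l, Even (A l).card) ∧ ∃ q, 0 < q ∧ (∀ p, p.Prime → p ∣ q → p ≤ T) ∧
      q ≤ T ^ (2 * ∑ l, (A l).card) ∧ IsSquare (q * ∏ l, ∏ i ∈ A l, e l i) := by
  classical
  have hunion : ∀ l, A l = Fr.biUnion fun k => (A l).filter fun i => c i = some k := by
    intro l
    ext i
    simp only [Finset.mem_biUnion, Finset.mem_filter]
    constructor
    · intro hi
      obtain ⟨k, hk, hik⟩ := hFr l i hi
      exact ⟨k, hk, hi, hik⟩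
    · rintro ⟨k, -, hi, -⟩
      exact hi
  have hdisj : ∀ l, ∀ k ∈ Fr, ∀ k' ∈ Fr, k ≠ k' →
      Disjoint ((A l).filter fun i => c i = some k) ((A l).filter fun i => c i = some k') := by
    intro l k _ k' _ hkk
    rw [Finset.disjoint_left]
    intro i hi hi'
    have h1 := (Finset.mem_filter.1 hi).2
    have h2 := (Finset.mem_filter.1 hi').2
    exact hkk (Option.some_injective _ (h1.symm.trans h2))
  have heven : ∀ l, Even (A l).card := by
    intro l
    rw [hunion l, Finset.card_biUnion (hdisj l)]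
    exact Finset.even_sum _ fun k hk => hA l k hk
  refine ⟨heven, ∏ l, ∏ i ∈ A l, a l i, ?_, ?_, ?_, ?_⟩
  · exact Finset.prod_pos fun l _ => Finset.prod_pos fun i hi => (ha l i hi).1
  · intro p hp hpq
    obtain ⟨l, -, hl⟩ := (hp.prime.dvd_finsetProd_iff _).1 hpq
    obtain ⟨i, hi, hi'⟩ := (hp.prime.dvd_finsetProd_iff _).1 hl
    exact hap l i hi p hp hi'
  · calc ∏ l, ∏ i ∈ A l, a l i ≤ ∏ l, ∏ i ∈ A l, T ^ 2 :=
          Finset.prod_le_prod' fun l _ => Finset.prod_le_prod' fun i hi => (ha l i hi).2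
      _ = T ^ (2 * ∑ l, (A l).card) := by
          simp only [Finset.prod_const]
          rw [Finset.prod_pow_eq_pow_sum, ← pow_mul]
  · have h1 : IsSquare (∏ l, ∏ i ∈ A l, (d i * (e l i * a l i))) := by
      refine Finset.isSquare_prod _ fun l _ => ?_
      rw [hunion l, Finset.prod_biUnion (hdisj l)]
      refine Finset.isSquare_prod _ fun k hk => ?_
      refine isSquare_prod_even _ _ _ rfl (hA l k hk) fun i hi j hj hij => ?_
      have h2 := Finset.mem_filter.1 hi
      have h3 := Finset.mem_filter.1 hj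
      have h4 := hsq l i h2.1 j h3.1 hij (h2.2.trans h3.2.symm)
      have h5 : d i * (e l i * a l i) * (d j * (e l j * a l j)) =
          d i * d j * (e l i * e l j) * (a l i * a l j) := by ring
      rw [h5]
      exact h4
    have h2 : ∏ l, ∏ i ∈ A l, (d i * (e l i * a l i)) =
        (∏ l, ∏ i ∈ A l, d i) * ((∏ l, ∏ i ∈ A l, a l i) * ∏ l, ∏ i ∈ A l, e l i) := by
      rw [← Finset.prod_mul_distrib, ← Finset.prod_mul_distrib]
      refine Finset.prod_congr rfl fun l _ => ?_
      rw [← Finset.prod_mul_distrib, ← Finset.prod_mul_distrib]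
      refine Finset.prod_congr rfl fun i _ => ?_
      ring
    have h3 : IsSquare (∏ l, ∏ i ∈ A l, d i) := by
      have h4 : ∏ l, ∏ i ∈ A l, d i = ∏ i, ∏ l ∈ Finset.univ.filter (fun l => i ∈ A l), d i := by
        have h5 : ∀ l, ∏ i ∈ A l, d i = ∏ i, if i ∈ A l then d i else 1 := by
          intro l
          rw [Finset.prod_ite_mem, Finset.univ_inter]
        simp only [h5]
        rw [Finset.prod_comm]
        refine Finset.prod_congr rfl fun i _ => ?_
        rw [Finset.prod_filter]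
      rw [h4]
      refine Finset.isSquare_prod _ fun i _ => ?_
      rw [Finset.prod_const]
      exact (hA' i).isSquare_pow _
    have h4 : 0 < ∏ l, ∏ i ∈ A l, d i :=
      Finset.prod_pos fun l _ => Finset.prod_pos fun i _ => hd i
    rw [h2] at h1
    exact isSquare_cancel h4 h3 h1

/-- The combinatorial core with `L + 1` places: the excess is at most `m / L`. -/
theorem coreE {Λ : Type} [CommRing Λ] [IsDomain Λ] [Algebra Λ ℂ] {n m T L : ℕ}
    (R : Fin n → Polynomial (Polynomial Λ)) (hR : ∀ i, (R i).Monic)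
    (hT : ∀ i u w, ((R i).coeff u).coeff w ≠ 0 → u ≤ T ∧ w ≤ T)
    (e : Fin (L + 1) → Fin n → ℕ) (he : ∀ l i, 0 < e l i) (hsq : Indep L T e)
    {r : ℕ} (cls : Fin n → Option (Fin r)) (d : Fin n → ℕ) (x s : Fin n → ℂ)
    (hd : ∀ i, 0 < d i)
    (hconst : ∀ i, cls i = none → IsAlgebraic Λ (x i))
    (hrel : ∀ i j l, cls i = some l → cls j = some l →
        IsIntegral (Algebra.adjoin ℤ {x i}) (x j) ∧
        Polynomial.eval₂ (Polynomial.aeval (x i) : Polynomial ℂ →ₐ[ℂ] ℂ).toRingHom (x j)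
          (W282.ZP.Psi (d i * d j)) = 0)
    (hRs : ∀ i, Polynomial.eval₂ (Polynomial.aeval (x i) : Polynomial Λ →ₐ[Λ] ℂ).toRingHom (s i)
      (R i) = 0)
    (S : Finset (Fin n)) (hS : AlgebraicIndependent Λ (fun i : S => x i))
    (V : Fin (L + 1) → ValuationSubring ℂ) (g : ∀ l, (V l).ValueGroup)
    (hg : ∀ l, g l < 1)
    (hVc : ∀ l i, cls i = none → (V l).valuation (x i) ≤ 1)
    (hVR : ∀ l i u w, ((R i).coeff u).coeff w ≠ 0 →
      (V l).valuation (algebraMap Λ ℂ (((R i).coeff u).coeff w)) = 1)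
    (hVx : ∀ l (i : S), x i ∈ V l)
    (hgood : ∀ l, ∃ E : Finset (Fin n), E.card ≤ m ∧ ∀ i, i ∉ E →
      (V l).valuation (s i) * g l ^ e l i = 1) :
    L * (S.card + n) ≤ L * r + (L + 1) * m := by
  classical
  have hQ : ∀ i j, 0 < d i * d j := fun i j => Nat.mul_pos (hd i) (hd j)
  have hV1 : ∀ l i j k, cls i = some k → cls j = some k → (V l).valuation (x i) ≤ 1 →
      (V l).valuation (x j) ≤ 1 := by
    intro l i j k hi hj h1
    exact ((W282.ZP.Psi_spec (hQ i j)).2.2 ℂ (V l) (x i) (x j) (hrel i j k hi hj).2).1 h1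
  have hSsome : ∀ t : S, ∃ k, cls t = some k := by
    intro t
    cases hc : cls t with
    | none => exact ((hS.transcendental t) (hconst t hc)).elim
    | some k => exact ⟨k, rfl⟩
  choose cl hcl using hSsome
  have hclinj : Function.Injective cl := by
    intro t t' htt
    by_contra hne
    exact not_algInd' hS hne (hrel t t' (cl t) (hcl t) (by rw [htt]; exact hcl t')).1
  by_contra hcon
  push Not at hcon
  choose E hE hEg using hgood
  have hone_lt : ∀ l i, i ∉ E l → 1 < (V l).valuation (s i) := by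
    intro l i hi
    by_contra hle
    push Not at hle
    have h1 : (V l).valuation (s i) * g l ^ e l i < 1 :=
      (mul_le_of_le_one_left' hle).trans_lt (pow_lt_one₀ zero_le (hg l) (he l i).ne')
    rw [hEg l i hi] at h1
    exact lt_irrefl _ h1
  have htie := fun l i (hi : i ∉ E l) => tie (V l) (R i) (hR i) (hVR l i) (hT i) (hRs i)
    (hone_lt l i hi)
  have hgt : ∀ l i, i ∉ E l → 1 < (V l).valuation (x i) := fun l i hi => (htie l i hi).1
  let Fr : Finset (Fin r) := Finset.univ.filter fun k : Fin r => k ∉ Finset.univ.image cl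
  have hFr : Fr.card + S.card = r := by
    have h2 : (Finset.univ.filter fun k : Fin r => k ∈ Finset.univ.image cl).card = S.card := by
      have h3 : (Finset.univ.filter fun k : Fin r => k ∈ Finset.univ.image cl) =
          Finset.univ.image cl := by
        ext k; simp
      rw [h3, Finset.card_image_of_injective _ hclinj, Finset.card_univ, Fintype.card_coe]
    have := Finset.card_filter_add_card_filter_not (s := (Finset.univ : Finset (Fin r)))
      (fun k => k ∈ Finset.univ.image cl)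
    rw [Finset.card_univ, Fintype.card_fin] at this
    change _ + Fr.card = r at this
    omega
  have hmaps : ∀ l i, i ∉ E l → ∃ k ∈ Fr, cls i = some k := by
    intro l i hi
    have h1 := hgt l i hi
    cases hc : cls i with
    | none => exact absurd h1 (not_lt.2 (hVc l i hc))
    | some k =>
      refine ⟨k, Finset.mem_filter.2 ⟨Finset.mem_univ _, ?_⟩, rfl⟩
      intro hk
      obtain ⟨t, -, ht⟩ := Finset.mem_image.1 hk
      have h3 := hV1 l t i k (ht ▸ hcl t) hc
        ((ValuationSubring.valuation_le_one_iff _ _).2 (hVx l t))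
      exact absurd h1 (not_lt.2 h3)
  let O : Finset (Fin n) := Finset.univ.filter fun i => ∀ k ∈ Fr, cls i ≠ some k
  have hOE : ∀ l, O ⊆ E l := by
    intro l i hi
    by_contra hiE
    obtain ⟨k, hk, hik⟩ := hmaps l i hiE
    exact (Finset.mem_filter.1 hi).2 k hk hik
  obtain ⟨A, hA0, hAE, hA1, hA2⟩ := evenSets cls Fr O E hOE hE (by
    rw [Fintype.card_fin]
    have h1 : L * r = L * Fr.card + L * S.card := by rw [← Nat.mul_add, hFr]
    rw [Nat.mul_add] at hcon
    omega)
  choose a b ha0 haT hb0 hbT hab using fun l i (hi : i ∉ E l) => (htie l i hi).2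
  let u : Fin (L + 1) → Fin n → ℕ := fun l i =>
    if hi : i ∉ E l then a l i hi * b l i hi else 1
  have hu : ∀ l i (hi : i ∉ E l), u l i = a l i hi * b l i hi := fun l i hi => dif_pos hi
  obtain ⟨h1, q, hq0, hqp, hqT, hq⟩ := square_of_even (T := T) cls Fr d hd e u A
    (fun l i hi => by
      rw [hu l i (hAE l i hi)]
      refine ⟨Nat.mul_pos (ha0 _ _ _) (hb0 _ _ _), ?_⟩
      rw [sq]
      exact Nat.mul_le_mul (haT _ _ _) (hbT _ _ _))
    (fun l i hi p hp hpu => by
      rw [hu l i (hAE l i hi)] at hpu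
      rcases (Nat.Prime.dvd_mul hp).1 hpu with h | h
      · exact (Nat.le_of_dvd (ha0 _ _ _) h).trans (haT _ _ _)
      · exact (Nat.le_of_dvd (hb0 _ _ _) h).trans (hbT _ _ _))
    (fun l i hi => hmaps l i (hAE l i hi)) hA1 hA2
    (fun l i hi j hj hij hcij => by
      have hiE := hAE l i hi
      have hjE := hAE l j hj
      rw [hu l i hiE, hu l j hjE]
      obtain ⟨k, -, hk⟩ := hmaps l i hiE
      exact sq_tie' (hQ i j) (hrel i j k hk (hcij ▸ hk)).2 (V l) (hg l)
          (hEg l i hiE) (hEg l j hjE) (hgt l i hiE) (hab l i hiE) (hab l j hjE))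
  exact hsq A hA0 h1 hA2 q hq0 hqp hqT hq

end Pool.Agent.R424.FD
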