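import Pool.Agent.Y152.RP.MixCore
import Pool.Agent.R424.FD.Core

/-!
The combinatorial core of the local criterion for mixed Shimura varieties `Y(1)^n × G_m^k` with few
places (helper file).
-/

set_option autoImplicit false

open Function UpperHalfPlane H294ZP MvPolynomial Pool.Agent.W466.ZC Pool.Agent.TH526.ZL

namespace Pool.Agent.R424.FD

/-- the number of places which is sufficient for the modular coordinates, less one -/
def L1 (n m : ℕ) : ℕ := min (m + 1) (n - 1)

/-- the number of places which is sufficient for the torus coordinates, less one -/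
def L2 (k m : ℕ) : ℕ := (k - 1) * ∑ i ∈ Finset.range (m + 1), k.choose i

/-- The combinatorial core in the mixed case. -/
theorem coreME {Λ : Type} [CommRing Λ] [IsDomain Λ] [Algebra Λ ℂ] {F : Type} [Field F]
    [Algebra F ℂ] {n k m T : ℕ}
    (R : Fin n → Polynomial (Polynomial Λ)) (hR : ∀ i, (R i).Monic)
    (hT : ∀ i u w, ((R i).coeff u).coeff w ≠ 0 → u ≤ T ∧ w ≤ T)
    (e : Fin (L1 n m + L2 k m + 1) → Fin n ⊕ Fin k → ℕ) (he : ∀ l i, 0 < e l i)
    (hsq : ∀ f : Fin (L1 n m + 1) → Fin (L1 n m + L2 k m + 1), Function.Injective f →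
      Indep (L1 n m) T fun l i => e (f l) (Sum.inl i))
    (hlin : ∀ (s : Finset (Fin (L1 n m + L2 k m + 1))) (b : Fin k → ℤ), k ≤ s.card →
      (∀ l ∈ s, ∑ j, b j * (e l (Sum.inr j) : ℤ) = 0) → b = 0)
    {r : ℕ} (cls : Fin n → Option (Fin r)) (d : Fin n → ℕ) (x : Fin n ⊕ Fin k → ℂ)
    (s : Fin n → ℂ) (M : Submodule ℤ (Fin k → ℤ)) (η : Fin k → ℂ)
    (hd : ∀ i, 0 < d i)
    (hconst : ∀ i, cls i = none → IsAlgebraic Λ (x (Sum.inl i)))
    (hrel : ∀ i j l, cls i = some l → cls j = some l →
        IsIntegral (Algebra.adjoin ℤ {x (Sum.inl i)}) (x (Sum.inl j)) ∧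
        Polynomial.eval₂ (Polynomial.aeval (x (Sum.inl i)) : Polynomial ℂ →ₐ[ℂ] ℂ).toRingHom
          (x (Sum.inl j)) (W282.ZP.Psi (d i * d j)) = 0)
    (hRs : ∀ i, Polynomial.eval₂
      (Polynomial.aeval (x (Sum.inl i)) : Polynomial Λ →ₐ[Λ] ℂ).toRingHom (s i) (R i) = 0)
    (hx0 : ∀ j, x (Sum.inr j) ≠ 0) (hηF : ∀ j, ∃ u : F, η j = algebraMap F ℂ u)
    (hM : ∀ a ∈ M, W282.ZP.chi (fun j => x (Sum.inr j)) a = W282.ZP.chi η a)
    (S : Finset (Fin n ⊕ Fin k)) (hS : AlgebraicIndependent Λ (fun i : S => x i))
    (hSF : AlgebraicIndependent F (fun i : S => x i))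
    (V : Fin (L1 n m + L2 k m + 1) → ValuationSubring ℂ) (g : ∀ l, (V l).ValueGroup)
    (hg0 : ∀ l, g l ≠ 0) (hg : ∀ l, g l < 1)
    (hVc : ∀ l i, cls i = none → (V l).valuation (x (Sum.inl i)) ≤ 1)
    (hVR : ∀ l i u w, ((R i).coeff u).coeff w ≠ 0 →
      (V l).valuation (algebraMap Λ ℂ (((R i).coeff u).coeff w)) = 1)
    (hVx : ∀ l (i : S), (V l).valuation (x i) = 1)
    (hVη : ∀ l j, (V l).valuation (η j) = 1)
    (hgood : ∀ l, ∃ E : Finset (Fin n ⊕ Fin k), E.card ≤ m ∧
      (∀ i, Sum.inl i ∉ E → (V l).valuation (s i) * g l ^ e l (Sum.inl i) = 1) ∧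
      ∀ j, Sum.inr j ∉ E → (V l).valuation (x (Sum.inr j)) * g l ^ e l (Sum.inr j) = 1) :
    S.card + n + Module.finrank ℤ M ≤ r + m := by
  classical
  have hQ : ∀ i j, 0 < d i * d j := fun i j => Nat.mul_pos (hd i) (hd j)
  have hV1 : ∀ l i j k, cls i = some k → cls j = some k → (V l).valuation (x (Sum.inl i)) ≤ 1 →
      (V l).valuation (x (Sum.inl j)) ≤ 1 := by
    intro l i j k hi hj h1
    exact ((W282.ZP.Psi_spec (hQ i j)).2.2 ℂ (V l) _ _ (hrel i j k hi hj).2).1 h1
  -- the two parts of `S`
  let U : Finset (Fin n) := S.toLeft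
  let T' : Finset (Fin k) := S.toRight
  have hScard : U.card + T'.card = S.card := S.card_toLeft_add_card_toRight
  have hSsome : ∀ t : U, ∃ k, cls t = some k := by
    intro t
    have ht : Sum.inl (t : Fin n) ∈ S := Finset.mem_toLeft.1 t.2
    cases hc : cls t with
    | none => exact ((hS.transcendental ⟨Sum.inl t, ht⟩) (hconst t hc)).elim
    | some k => exact ⟨k, rfl⟩
  choose cl hcl using hSsome
  have hclinj : Function.Injective cl := by
    intro t t' htt
    by_contra hne
    refine not_algInd'' hS (i := ⟨Sum.inl (t : Fin n), Finset.mem_toLeft.1 t.2⟩)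
      (j := ⟨Sum.inl (t' : Fin n), Finset.mem_toLeft.1 t'.2⟩) ?_
      (hrel t t' (cl t) (hcl t) (by rw [htt]; exact hcl t')).1
    intro h
    apply hne
    have h1 := Sum.inl_injective (congrArg Subtype.val h)
    exact Subtype.ext h1
  -- the lattice of relations, enlarged by the independent torus coordinates
  set xt : Fin k → ℂ := fun j => x (Sum.inr j) with hxt
  have hT' : AlgebraicIndependent F (fun j : T' => xt j) := by
    have h1 := hSF.comp (fun j : T' => (⟨Sum.inr (j : Fin k), Finset.mem_toRight.1 j.2⟩ : S))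
      (by
        intro j j' h
        have h1 := Sum.inr_injective (congrArg Subtype.val h)
        exact Subtype.ext h1)
    exact h1
  let M' : Submodule ℤ (Fin k → ℤ) :=
    M ⊔ Submodule.span ℤ ((fun j => Pi.single j (1 : ℤ)) '' (T' : Set (Fin k)))
  have hfin : Module.finrank ℤ M + T'.card ≤ Module.finrank ℤ M' := by
    refine W282.ZP.finrank_add_card' xt hx0 T' hT' M ?_ M' le_sup_left ?_
    · intro a ha
      choose u hu using hηF
      refine ⟨∏ j, u j ^ a j, ?_⟩
      rw [hM a ha, W282.ZP.chi, map_prod]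
      refine Finset.prod_congr rfl fun j _ => ?_
      rw [map_zpow₀, hu]
    · intro j hj
      exact Submodule.mem_sup_right (Submodule.subset_span ⟨j, hj, rfl⟩)
  have hv0 : ∀ l i, (V l).valuation (xt i) ≠ 0 := fun l i => (Valuation.ne_zero_iff _).2 (hx0 i)
  have hle : ∀ l, M' ≤ W282.ZP.oneLat (fun i => (V l).valuation (xt i)) (hv0 l) := by
    intro l
    refine sup_le ?_ (Submodule.span_le.2 ?_)
    · intro b hb
      change W282.ZP.chi (fun i => (V l).valuation (xt i)) b = 1
      have h1 : W282.ZP.chi (fun i => (V l).valuation (xt i)) b =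
          (V l).valuation (W282.ZP.chi xt b) := by
        simp [W282.ZP.chi]
      rw [h1, hM b hb]
      simp only [W282.ZP.chi, map_prod, map_zpow₀, hVη l, one_zpow, Finset.prod_const_one]
    · rintro _ ⟨j, hj, rfl⟩
      change W282.ZP.chi (fun i => (V l).valuation (xt i)) (Pi.single j (1 : ℤ)) = 1
      rw [W282.ZP.chi_single]
      exact hVx l ⟨Sum.inr j, Finset.mem_toRight.1 hj⟩
  by_contra hcon
  push Not at hcon
  choose E hE hEg hEt using hgood
  have hone_lt : ∀ l i, Sum.inl i ∉ E l → 1 < (V l).valuation (s i) := by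
    intro l i hi
    by_contra hle
    push Not at hle
    have h1 : (V l).valuation (s i) * g l ^ e l (Sum.inl i) < 1 :=
      (mul_le_of_le_one_left' hle).trans_lt (pow_lt_one₀ zero_le (hg l) (he l _).ne')
    rw [hEg l i hi] at h1
    exact lt_irrefl _ h1
  have htie := fun l i (hi : Sum.inl i ∉ E l) => tie (V l) (R i) (hR i) (hVR l i) (hT i) (hRs i)
    (hone_lt l i hi)
  have hgt : ∀ l i, Sum.inl i ∉ E l → 1 < (V l).valuation (x (Sum.inl i)) :=
    fun l i hi => (htie l i hi).1
  let Fr : Finset (Fin r) := Finset.univ.filter fun k : Fin r => k ∉ Finset.univ.image cl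
  have hFr : Fr.card + U.card = r := by
    have h2 : (Finset.univ.filter fun k : Fin r => k ∈ Finset.univ.image cl).card = U.card := by
      have h3 : (Finset.univ.filter fun k : Fin r => k ∈ Finset.univ.image cl) =
          Finset.univ.image cl := by
        ext k; simp
      rw [h3, Finset.card_image_of_injective _ hclinj, Finset.card_univ, Fintype.card_coe]
    have := Finset.card_filter_add_card_filter_not (s := (Finset.univ : Finset (Fin r)))
      (fun k => k ∈ Finset.univ.image cl)
    rw [Finset.card_univ, Fintype.card_fin] at this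
    change _ + Fr.card = r at this
    omega
  have hmaps : ∀ l i, Sum.inl i ∉ E l → ∃ k ∈ Fr, cls i = some k := by
    intro l i hi
    have h1 := hgt l i hi
    cases hc : cls i with
    | none => exact absurd h1 (not_lt.2 (hVc l i hc))
    | some k =>
      refine ⟨k, Finset.mem_filter.2 ⟨Finset.mem_univ _, ?_⟩, rfl⟩
      intro hk
      obtain ⟨t, -, ht⟩ := Finset.mem_image.1 hk
      have h3 := hV1 l t i k (ht ▸ hcl t) hc
        (hVx l ⟨Sum.inl (t : Fin n), Finset.mem_toLeft.1 t.2⟩).le
      exact absurd h1 (not_lt.2 h3)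
  have hEE : ∀ l, (E l).toLeft.card + (E l).toRight.card ≤ m := by
    intro l
    rw [(E l).card_toLeft_add_card_toRight]
    exact hE l
  -- the places of the two kinds
  let FM : Finset (Fin (L1 n m + L2 k m + 1)) := Finset.univ.filter fun l =>
    (E l).toLeft.card + Fr.card < n
  let FT : Finset (Fin (L1 n m + L2 k m + 1)) := Finset.univ.filter fun l =>
    (E l).toRight.card < Module.finrank ℤ M'
  have hcover : L1 n m + L2 k m + 1 ≤ FM.card + FT.card := by
    calc L1 n m + L2 k m + 1 =
          (Finset.univ : Finset (Fin (L1 n m + L2 k m + 1))).card := by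
            rw [Finset.card_univ, Fintype.card_fin]
      _ ≤ (FM ∪ FT).card := by
            refine Finset.card_le_card fun l _ => ?_
            by_cases h1 : (E l).toLeft.card + Fr.card < n
            · exact Finset.mem_union_left _ (Finset.mem_filter.2 ⟨Finset.mem_univ _, h1⟩)
            · refine Finset.mem_union_right _ (Finset.mem_filter.2 ⟨Finset.mem_univ _, ?_⟩)
              have h2 := hEE l
              omega
      _ ≤ _ := Finset.card_union_le _ _
  have hFM : FM.card ≤ L1 n m := by
    by_contra hlt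
    push Not at hlt
    let f : Fin (L1 n m + 1) → Fin (L1 n m + L2 k m + 1) := fun l =>
      FM.orderEmbOfCardLe (k := L1 n m + 1) hlt l
    have hf : Function.Injective f := (FM.orderEmbOfCardLe (k := L1 n m + 1) hlt).injective
    have hfm : ∀ l, (E (f l)).toLeft.card + Fr.card < n := fun l =>
      (Finset.mem_filter.1 (FM.orderEmbOfCardLe_mem (k := L1 n m + 1) hlt l)).2
    -- there is a free class
    have hFr1 : 1 ≤ Fr.card := by
      by_contra h0
      have h1 := hfm 0
      have h2 : (E (f 0)).toLeft.card < Fintype.card (Fin n) := by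
        rw [Fintype.card_fin]
        omega
      obtain ⟨i, hi⟩ : ∃ i, i ∉ (E (f 0)).toLeft := by
        by_contra hall
        push Not at hall
        rw [← Finset.card_univ] at h2
        exact absurd h2 (not_lt.2 (Finset.card_le_card fun i _ => hall i))
      obtain ⟨k', hk', -⟩ := hmaps (f 0) i fun h => hi (Finset.mem_toLeft.2 h)
      exact h0 (Finset.card_pos.2 ⟨k', hk'⟩)
    let O : Finset (Fin n) := Finset.univ.filter fun i => ∀ k ∈ Fr, cls i ≠ some k
    have hOE : ∀ l, O ⊆ (E (f l)).toLeft := by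
      intro l i hi
      by_contra hiE
      obtain ⟨k, hk, hik⟩ := hmaps (f l) i fun h => hiE (Finset.mem_toLeft.2 h)
      exact (Finset.mem_filter.1 hi).2 k hk hik
    have hn : Fr.card < n := by
      have := hfm 0
      omega
    obtain ⟨A, hA0, hAE, hA1, hA2⟩ := evenSets cls Fr O (fun l => (E (f l)).toLeft) hOE
      (μ := min m (n - Fr.card - 1)) (fun l => by
        have h1 := hfm l
        have h2 := hEE (f l)
        simp only [le_min_iff]
        constructor <;> omega) (by
      rw [Fintype.card_fin]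
      obtain ⟨D, hD⟩ : ∃ D, n = Fr.card + D + 1 := ⟨n - Fr.card - 1, by omega⟩
      have hD' : n - Fr.card - 1 = D := by omega
      have hL : min (m + 1) (D + 1) ≤ L1 n m := by
        unfold L1
        omega
      rw [hD']
      have h3 : L1 n m * n = L1 n m * Fr.card + L1 n m * (D + 1) := by
        rw [hD]
        ring
      rw [h3]
      have h4 : (L1 n m + 1) * min m D < L1 n m * (D + 1) := by
        rcases le_total m D with h | h
        · rw [min_eq_left h]
          have h5 : m + 1 ≤ L1 n m := by
            rw [min_eq_left (by omega)] at hL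
            exact hL
          nlinarith
        · rw [min_eq_right h]
          have h5 : D + 1 ≤ L1 n m := by
            rw [min_eq_right (by omega)] at hL
            exact hL
          nlinarith
      omega)
    have hAE' : ∀ l, ∀ i ∈ A l, Sum.inl i ∉ E (f l) := fun l i hi h =>
      hAE l i hi (Finset.mem_toLeft.2 h)
    choose a b ha0 haT hb0 hbT hab using fun l i (hi : Sum.inl i ∉ E l) => (htie l i hi).2
    let u : Fin (L1 n m + 1) → Fin n → ℕ := fun l i =>
      if hi : Sum.inl i ∉ E (f l) then a (f l) i hi * b (f l) i hi else 1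
    have hu : ∀ l i (hi : Sum.inl i ∉ E (f l)), u l i = a (f l) i hi * b (f l) i hi :=
      fun l i hi => dif_pos hi
    obtain ⟨h1, q, hq0, hqp, hqT, hq⟩ := square_of_even (T := T) cls Fr d hd
      (fun l i => e (f l) (Sum.inl i)) u A
      (fun l i hi => by
        rw [hu l i (hAE' l i hi)]
        refine ⟨Nat.mul_pos (ha0 _ _ _) (hb0 _ _ _), ?_⟩
        rw [sq]
        exact Nat.mul_le_mul (haT _ _ _) (hbT _ _ _))
      (fun l i hi p hp hpu => by
        rw [hu l i (hAE' l i hi)] at hpu
        rcases (Nat.Prime.dvd_mul hp).1 hpu with h | h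
        · exact (Nat.le_of_dvd (ha0 _ _ _) h).trans (haT _ _ _)
        · exact (Nat.le_of_dvd (hb0 _ _ _) h).trans (hbT _ _ _))
      (fun l i hi => hmaps (f l) i (hAE' l i hi)) hA1 hA2
      (fun l i hi j hj hij hcij => by
        have hiE := hAE' l i hi
        have hjE := hAE' l j hj
        rw [hu l i hiE, hu l j hjE]
        obtain ⟨k, -, hk⟩ := hmaps (f l) i hiE
        exact sq_tie' (hQ i j) (hrel i j k hk (hcij ▸ hk)).2 (V (f l)) (hg (f l))
            (hEg (f l) i hiE) (hEg (f l) j hjE) (hgt (f l) i hiE) (hab (f l) i hiE)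
            (hab (f l) j hjE))
    exact hsq f hf A hA0 h1 hA2 q hq0 hqp hqT hq
  have hFT : FT.card ≤ L2 k m := by
    by_contra hlt
    push Not at hlt
    let tt : Finset (Finset (Fin k)) := (Finset.range (m + 1)).biUnion fun i =>
      Finset.powersetCard i (Finset.univ : Finset (Fin k))
    have htt : tt.card ≤ ∑ i ∈ Finset.range (m + 1), k.choose i := by
      refine Finset.card_biUnion_le.trans (le_of_eq ?_)
      refine Finset.sum_congr rfl fun i _ => ?_
      rw [Finset.card_powersetCard, Finset.card_univ, Fintype.card_fin]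
    obtain ⟨Z, -, hZ⟩ := Finset.exists_lt_card_fiber_of_mul_lt_card_of_maps_to (s := FT)
      (t := tt) (f := fun l => (E l).toRight) (n := k - 1)
      (fun l _ => by
        refine Finset.mem_biUnion.2 ⟨(E l).toRight.card, ?_, ?_⟩
        · have := hEE l
          rw [Finset.mem_range]
          omega
        · exact Finset.mem_powersetCard.2 ⟨Finset.subset_univ _, rfl⟩) (by
        refine lt_of_le_of_lt ?_ hlt
        rw [mul_comm]
        exact Nat.mul_le_mul_left _ htt)
    have hne : (FT.filter fun l => (E l).toRight = Z).Nonempty := Finset.card_pos.1 (by omega)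
    obtain ⟨l0, hl0⟩ := hne
    rw [Finset.mem_filter] at hl0
    have hbig : k < Module.finrank ℤ M' + Zᶜ.card := by
      have h1 := (Finset.mem_filter.1 hl0.1).2
      rw [hl0.2] at h1
      have h2 := Finset.card_compl_add_card Z
      rw [Fintype.card_fin] at h2
      omega
    obtain ⟨a, haΛ, ha0, haZ⟩ := W282.ZP.exists_supported M' Zᶜ hbig
    refine ha0 (hlin (FT.filter fun l => (E l).toRight = Z) a (by omega) fun l hl => ?_)
    rw [Finset.mem_filter] at hl
    refine rel_of_polar' (V l) (hg l) (hg0 l) (x := xt)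
      (e := fun j => e l (Sum.inr j)) (Y := Zᶜ) (fun j hj => ?_) haZ (hle l haΛ)
    refine hEt l j fun h => ?_
    rw [Finset.mem_compl, ← hl.2] at hj
    exact hj (Finset.mem_toRight.2 h)
  omega

end Pool.Agent.R424.FD
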