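import Pool.Agent.TH526.ZL.E
import Pool.Agent.R424.FD.Core

/-!
The local criterion with `L + 1` places, for points (helper file, adapted from
`Pool.Agent.TH526.ZL.D`).
-/

set_option autoImplicit false

open Function UpperHalfPlane H294ZP MvPolynomial Pool.Agent.W466.ZC Pool.Agent.TH526.ZL

namespace Pool.Agent.R424.FD

/-- The local criterion, for points. -/
theorem criterionE {Λ : Type} [CommRing Λ] [IsDomain Λ] [Algebra Λ ℂ] {κ : Type*}
    {N n m L : ℕ} (G : κ → MvPolynomial (Fin (N + 1)) Λ)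
    (hG : ∀ i, ∃ e, (G i).IsHomogeneous e) (A B : Fin n → MvPolynomial (Fin (N + 1)) Λ)
    (d : Fin n → ℕ) (hA : ∀ i, (A i).IsHomogeneous (d i)) (hB : ∀ i, (B i).IsHomogeneous (d i))
    (R : Fin n → Polynomial (Polynomial Λ)) (hR : ∀ i, (R i).Monic) {T : ℕ}
    (hT : ∀ i u w, ((R i).coeff u).coeff w ≠ 0 → u ≤ T ∧ w ≤ T)
    (c : Fin n → Λ) (𝔭 : Fin (L + 1) → Ideal Λ) (h𝔭 : ∀ l, (𝔭 l).IsPrime)
    (hpos : ∀ l (F : Type) [Field F] (φ : Λ →+* F), RingHom.ker φ = 𝔭 l → ∀ I : Finset (Fin n),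
      I.card = m + 1 → ∀ y : Fin (N + 1) → F, y ≠ 0 → (∀ k, eval₂ φ y (G k) = 0) →
      ∃ i ∈ I, eval₂ φ y (A i) * eval₂ φ y (B i) ≠ 0)
    (hRu : ∀ l i u w, ((R i).coeff u).coeff w ≠ 0 → ((R i).coeff u).coeff w ∉ 𝔭 l)
    (π : Fin (L + 1) → Λ) (hπ : ∀ l, π l ∈ 𝔭 l)
    (e : Fin (L + 1) → Fin n → ℕ) (he : ∀ l i, 0 < e l i)
    (hc : ∀ l i, ∃ a b : Λ, a ∉ 𝔭 l ∧ b ∉ 𝔭 l ∧ a * c i = b * π l ^ e l i)
    (hsq : Indep L T e)
    {r : ℕ} (cls : Fin n → Option (Fin r)) (dt : Fin n → ℕ) (x s : Fin n → ℂ)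
    (hdt : ∀ i, 0 < dt i)
    (hconst : ∀ i, cls i = none → IsIntegral Λ (x i))
    (hrel : ∀ i j l, cls i = some l → cls j = some l →
        IsIntegral (Algebra.adjoin ℤ {x i}) (x j) ∧
        Polynomial.eval₂ (Polynomial.aeval (x i) : Polynomial ℂ →ₐ[ℂ] ℂ).toRingHom (x j)
          (W282.ZP.Psi (dt i * dt j)) = 0)
    (hRs : ∀ i, Polynomial.eval₂ (Polynomial.aeval (x i) : Polynomial Λ →ₐ[Λ] ℂ).toRingHom (s i)
      (R i) = 0)
    (y : Fin (N + 1) → ℂ) (hy0 : y ≠ 0) (hyG : ∀ i, aeval y (G i) = 0)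
    (hxy : ∀ i, algebraMap Λ ℂ (c i) * aeval y (B i) * s i = aeval y (A i))
    (S : Finset (Fin n)) (hS : AlgebraicIndependent Λ (fun i : S => x i)) :
    L * (S.card + n) ≤ L * r + (L + 1) * m := by
  classical
  choose V hV1 hV2 hVx using fun l => exists_place (𝔭 l) _ hS
  have hunit : ∀ l (a : Λ), a ∉ 𝔭 l → (V l).valuation (algebraMap Λ ℂ a) = 1 := by
    intro l a ha
    refine le_antisymm (hV1 l a) ?_
    by_contra h
    push Not at h
    exact ha ((hV2 l a).1 h)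
  refine coreE (m := m) R hR hT e he hsq cls dt x s hdt (fun i hi => (hconst i hi).isAlgebraic)
    hrel hRs S hS V
    (fun l => (V l).valuation (algebraMap Λ ℂ (π l))) (fun l => (hV2 l (π l)).2 (hπ l))
    (fun l i hi => mem_of_int (V l) (hV1 l) (hconst i hi))
    (fun l i u w h0 => hunit l _ (hRu l i u w h0)) hVx ?_
  intro l
  obtain ⟨t, ht0, hAB, hI⟩ := good_place G hG A B (hpos l) (V l) (hV1 l) (hV2 l) y hy0 hyG
  refine ⟨Finset.univ.filter fun i =>
      ¬ (V l).valuation (aeval (t • y) (A i) * aeval (t • y) (B i)) = 1, ?_, ?_⟩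
  · by_contra h
    push Not at h
    obtain ⟨I, hIE, hIc⟩ := Finset.exists_subset_card_eq (Nat.succ_le_of_lt h)
    obtain ⟨i, hi, h1⟩ := hI I hIc
    exact (Finset.mem_filter.1 (hIE hi)).2 h1
  · intro i hi
    rw [Finset.mem_filter] at hi
    push Not at hi
    have h1 := hi (Finset.mem_univ i)
    have hA1 := (ValuationSubring.valuation_le_one_iff _ _).2 (hAB i).1
    have hB1 := (ValuationSubring.valuation_le_one_iff _ _).2 (hAB i).2
    rw [map_mul] at h1
    have hA2 : (V l).valuation (aeval (t • y) (A i)) = 1 := by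
      refine le_antisymm hA1 ?_
      by_contra h
      push Not at h
      have h2 := (mul_le_of_le_one_right' hB1).trans_lt h
      rw [h1] at h2
      exact lt_irrefl _ h2
    have hB2 : (V l).valuation (aeval (t • y) (B i)) = 1 := by
      rw [hA2, one_mul] at h1
      exact h1
    have hsm : ∀ (P : MvPolynomial (Fin (N + 1)) Λ) (f : ℕ), P.IsHomogeneous f →
        aeval (t • y) P = t ^ f * aeval y P := by
      intro P f hP
      have h1 := eval_smul (hP.map (algebraMap Λ ℂ)) t y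
      rwa [eval_map, eval_map, ← aeval_def, ← aeval_def] at h1
    have h3 : algebraMap Λ ℂ (c i) * aeval (t • y) (B i) * s i = aeval (t • y) (A i) := by
      rw [hsm _ _ (hA i), hsm _ _ (hB i), ← hxy i]
      ring
    have h4 := congrArg (V l).valuation h3
    rw [map_mul, map_mul, hA2, hB2, mul_one] at h4
    obtain ⟨a, b, ha, hb, hab⟩ := hc l i
    have h5 := congrArg (fun z => (V l).valuation (algebraMap Λ ℂ z)) hab
    simp only [map_mul, map_pow, hunit l a ha, hunit l b hb, one_mul] at h5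
    rw [← h5, mul_comm]
    exact h4

end Pool.Agent.R424.FD
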