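import Pool.Agent.R424.MX.Rat
import Pool.Agent.R424.FD.CorMix

/-!
One-parameter families of subsets of `Y(1)^n × G_m^k` with few degenerate members, and parameters in
finitely generated fields and rings (helper file for `MP_a325a5_ag.FewDegenerateMembers`, adapted
from `Pool.Agent.R424.MX`).
-/

set_option autoImplicit false

namespace Pool.Agent.R424.FD

open H294ZP UpperHalfPlane MvPolynomial Pool.Agent.W282.ZP Pool.Agent.Y152.BD
  Pool.Agent.Y152.RP Pool.Agent.Y152.RP.FamM Pool.Agent.Y910.Z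
open Pool.Agent.R424.MX (order exists_placeU finite_units ratl evalAt_hm hmv eval_hmv hom_hmv
  hom_C_mul onB_hmv scaledImage_hmv pos_hmv NonConst preR mem_preR ram ram_pos order_hm alg_preR
  exists_bound hm)

theorem toNat_mul' {a b : ℤ} (ha : 0 < a) (hb : 0 < b) : (a * b).toNat = a.toNat * b.toNat := by
  lift a to ℕ using ha.le
  lift b to ℕ using hb.le
  rw [← Nat.cast_mul]
  simp only [Int.toNat_natCast]

/-- The orders of the zeros of the `c i` at the elements of the `D l` are positive and independent.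
For the modular coordinates they are independent modulo squares: if `A l` are sets of modular
coordinates with an even number of elements, not all empty, for `min (m + 1) (n - 1) + 1` different
indices, and every coordinate lies in an even number of them, then
`q ∏_l ∏_{i ∈ A l} order (c i) (α l)` is not a square for `α l ∈ D (f l)`, and any positive integer `q`
which is at most `T` to the power `2 ∑ |A l|` and has no prime factor larger than `T`. For the torus
coordinates they are linearly independent: the vectors of the orders at elements of any `k` of the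
sets `D l` are linearly independent. -/
def Independent {K : Subfield ℂ} {n k M : ℕ} (m T : ℕ) (c : Fin n ⊕ Fin k → Polynomial K)
    (D : Fin M → Finset ℂ) : Prop :=
  (∀ l, ∀ α ∈ D l, ∀ i, 0 < order (c i) α) ∧
  (∀ (f : Fin (L1 n m + 1) → Fin M) (α : Fin (L1 n m + 1) → ℂ), Function.Injective f →
    (∀ l, α l ∈ D (f l)) → ∀ A : Fin (L1 n m + 1) → Finset (Fin n),
    (∃ l, (A l).Nonempty) → (∀ l, Even (A l).card) →
    (∀ i, Even (Finset.univ.filter fun l => i ∈ A l).card) →
    ∀ q, 0 < q → (∀ p, p.Prime → p ∣ q → p ≤ T) → q ≤ T ^ (2 * ∑ l, (A l).card) →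
      ¬ IsSquare (q * ∏ l, ∏ i ∈ A l, order (c (Sum.inl i)) (α l))) ∧
  ∀ (s : Finset (Fin M)) (α : Fin M → ℂ) (b : Fin k → ℤ), (∀ l ∈ s, α l ∈ D l) → k ≤ s.card →
    (∀ l ∈ s, ∑ j, b j * (order (c (Sum.inr j)) (α l) : ℤ) = 0) → b = 0

/-- One-parameter families which degenerate at sufficiently many algebraic values of the parameter:
all but finitely many of the members with parameter in a finitely generated field or ring have no
atypical intersection with the products of special subvarieties and torsion cosets. -/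
theorem family (K : Subfield ℂ) [Countable K] (κ : Type) [Finite κ] (N n k₀ m M T : ℕ)
    (G : κ → MvPolynomial (Fin (N + 1)) (Polynomial K)) (hG : ∀ k, ∃ e, (G k).IsHomogeneous e)
    (A B : Fin n ⊕ Fin k₀ → MvPolynomial (Fin (N + 1)) (Polynomial K)) (δ : Fin n ⊕ Fin k₀ → ℕ)
    (hA : ∀ i, (A i).IsHomogeneous (δ i)) (hB : ∀ i, (B i).IsHomogeneous (δ i))
    (R : Fin n → Polynomial (Polynomial K)) (hR : ∀ i, (R i).Monic)
    (hT : ∀ i u w, ((R i).coeff u).coeff w ≠ 0 → u ≤ T ∧ w ≤ T)
    (c : Fin n ⊕ Fin k₀ → Polynomial K) (D : Fin M → Finset ℂ)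
    (hD : ∀ l, ∀ α ∈ D l, IsAlgebraic K α)
    (hind : Independent m T c D) (hpos : ∀ l, ∀ α ∈ D l, InGeneralPosition α m G A B)
    (Γ : Finset ℂ) (hΓ : ∀ γ ∈ Γ, IsAlgebraic K γ) (F : Finset ℂ)
    (hF : ∀ z ∈ F, IsAlgebraic K z) :
    ((∀ I : Finset (Fin M), M ≤ I.card + (L1 n m + L2 k₀ m) →
        3 ≤ (I.biUnion D).card) →
      {t : ℂ | t ∈ Subfield.closure (F : Set ℂ) ∧
        ¬ NoAtypical (algebraMap (Algebra.adjoin ℤ (Γ : Set ℂ)) ℂ) K m
          (scaledImage t G A B R c)}.Finite) ∧
    ((∀ I : Finset (Fin M), M ≤ I.card + (L1 n m + L2 k₀ m) →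
        2 ≤ (I.biUnion D).card) →
      {t : ℂ | t ∈ Subring.closure (F : Set ℂ) ∧
        ¬ NoAtypical (algebraMap (Algebra.adjoin ℤ (Γ : Set ℂ)) ℂ) K m
          (scaledImage t G A B R c)}.Finite) ∧
    ((∀ I : Finset (Fin M), M ≤ I.card + (L1 n m + L2 k₀ m) →
        ∃ a ∈ I.biUnion D, a ≠ 0) →
      {t : ℂ | (t ∈ Subring.closure (F : Set ℂ) ∧ t ≠ 0 ∧ t⁻¹ ∈ Subring.closure (F : Set ℂ)) ∧
        ¬ NoAtypical (algebraMap (Algebra.adjoin ℤ (Γ : Set ℂ)) ℂ) K m
          (scaledImage t G A B R c)}.Finite) := by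
  classical
  let k := algebraicClosure K ℂ
  have hcl : IsAlgClosure K k := inferInstance
  have hac : IsAlgClosed k := hcl.isAlgClosed
  have hc0k : CharZero k := inferInstance
  let φ : Polynomial K →+* Polynomial k := Polynomial.mapRingHom (algebraMap K k)
  have hev : ∀ (t : k), (algebraMap k ℂ).comp ((Polynomial.evalRingHom t).comp φ) =
      evalAt K (algebraMap k ℂ t) := by
    intro t
    refine Polynomial.ringHom_ext (fun a => ?_) ?_
    · simp only [φ, evalAt, RingHom.comp_apply, Polynomial.coe_mapRingHom, Polynomial.map_C,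
        Polynomial.coe_evalRingHom, Polynomial.eval_C, AlgHom.toRingHom_eq_coe, RingHom.coe_coe,
        Polynomial.aeval_C]
      rfl
    · simp only [φ, evalAt, RingHom.comp_apply, Polynomial.coe_mapRingHom, Polynomial.map_X,
        Polynomial.coe_evalRingHom, Polynomial.eval_X, AlgHom.toRingHom_eq_coe, RingHom.coe_coe,
        Polynomial.aeval_X]
  have hspec : ∀ (t : k) (P : MvPolynomial (Fin (N + 1)) (Polynomial K)) (y : Fin (N + 1) → ℂ),
      aeval y (TH526.ZL.spec t (MvPolynomial.map φ P)) =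
        eval₂ (evalAt K (algebraMap k ℂ t)) y P := by
    intro t P y
    rw [TH526.ZL.spec, MvPolynomial.map_map, aeval_def, eval₂_map, hev]
  have hmult : ∀ (α : k) (i : Fin n ⊕ Fin k₀), (φ (c i)).rootMultiplicity α =
      order (c i) (algebraMap k ℂ α) := by
    intro α i
    have h1 := Polynomial.eq_rootMultiplicity_map (p := φ (c i)) (f := algebraMap k ℂ)
      (algebraMap k ℂ).injective α
    rw [h1]
    simp only [φ, order, Polynomial.coe_mapRingHom, Polynomial.map_map]
    rfl
  -- finite sets of algebraic numbers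
  have hlift : ∀ S : Finset ℂ, (∀ z ∈ S, IsAlgebraic K z) → ∃ S' : Finset k,
      (∀ z : k, z ∈ S' ↔ algebraMap k ℂ z ∈ S) ∧
      algebraMap k ℂ '' (S' : Set k) = (S : Set ℂ) := by
    intro S hS
    have hmem : ∀ z ∈ S, z ∈ algebraicClosure K ℂ := fun z hz =>
      mem_algebraicClosure_iff'.2 (hS z hz).isIntegral
    have h1 : ∀ z : k, z ∈ (S.attach.image fun z => (⟨z.1, hmem z.1 z.2⟩ : k)) ↔
        algebraMap k ℂ z ∈ S := by
      intro z
      constructor
      · intro hz
        obtain ⟨w, _, hw⟩ := Finset.mem_image.1 hz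
        rw [← hw]
        exact w.2
      · intro hz
        exact Finset.mem_image.2 ⟨⟨z.1, hz⟩, Finset.mem_attach _ _, rfl⟩
    refine ⟨S.attach.image fun z => ⟨z.1, hmem z.1 z.2⟩, h1, ?_⟩
    ext z
    constructor
    · rintro ⟨w, hw, rfl⟩
      exact (h1 w).1 hw
    · intro hz
      exact ⟨⟨z, hmem z hz⟩, (h1 _).2 hz, rfl⟩
  obtain ⟨Γf, -, hΓf⟩ := hlift Γ hΓ
  let Γ' : Set k := (Γf : Set k)
  have hΓ' : algebraMap k ℂ '' Γ' = (Γ : Set ℂ) := hΓf
  obtain ⟨F', -, hF'⟩ := hlift F hF
  choose D' hD' hD'im using fun l => hlift (D l) (hD l)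
  have hcard : ∀ I : Finset (Fin M), (I.biUnion D').card = (I.biUnion D).card := by
    intro I
    rw [← Finset.card_image_of_injective (I.biUnion D') (algebraMap k ℂ).injective]
    congr 1
    ext z
    simp only [Finset.mem_image, Finset.mem_biUnion]
    constructor
    · rintro ⟨w, ⟨l, hl, hw⟩, rfl⟩
      exact ⟨l, hl, (hD' l w).1 hw⟩
    · rintro ⟨l, hl, hz⟩
      have h1 : z ∈ algebraMap k ℂ '' (D' l : Set k) := by
        rw [hD'im]
        exact hz
      obtain ⟨w, hw, hwz⟩ := h1
      exact ⟨w, ⟨l, hl, hw⟩, hwz⟩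
  -- the case without degenerate members
  by_cases hne : ∃ l, (D l).Nonempty
  swap
  · have h0 : ((Finset.univ : Finset (Fin M)).biUnion D).card = 0 := by
      rw [Finset.card_eq_zero, Finset.eq_empty_iff_forall_notMem]
      intro z hz
      obtain ⟨l, _, hl⟩ := Finset.mem_biUnion.1 hz
      exact hne ⟨l, z, hl⟩
    have h1 : ∀ L, M ≤ (Finset.univ : Finset (Fin M)).card + L := by
      intro L
      rw [Finset.card_univ, Fintype.card_fin]
      omega
    refine ⟨fun h => ?_, fun h => ?_, fun h => ?_⟩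
    · exfalso
      have := h Finset.univ (h1 _)
      omega
    · exfalso
      have := h Finset.univ (h1 _)
      omega
    · exfalso
      obtain ⟨a, ha, -⟩ := h Finset.univ (h1 _)
      have := Finset.card_pos.2 ⟨a, ha⟩
      omega
  let Rt : Finset k := Finset.univ.biUnion D'
  have hRt : ∀ α : k, α ∈ Rt ↔ ∃ l, α ∈ D' l := by
    intro α
    simp only [Rt, Finset.mem_biUnion, Finset.mem_univ, true_and]
  let ρt : Fin Rt.card → k := fun l => (Rt.equivFin.symm l : k)
  have hρ : ∀ α ∈ Rt, ∃ l, ρt l = α := by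
    intro α hα
    refine ⟨Rt.equivFin ⟨α, hα⟩, ?_⟩
    simp [ρt]
  have hρ' : ∀ l, ρt l ∈ Rt := fun l => (Rt.equivFin.symm l).2
  have hc0 : ∀ i, φ (c i) ≠ 0 := by
    intro i h0
    obtain ⟨l, z, hz⟩ := hne
    have h2 : z ∈ algebraMap k ℂ '' (D' l : Set k) := by
      rw [hD'im]
      exact hz
    obtain ⟨α₀, hα₀, rfl⟩ := h2
    have h1 : 0 < order (c i) (algebraMap k ℂ α₀) := hind.1 l _ hz i
    rw [← hmult, h0, Polynomial.rootMultiplicity_zero] at h1
    exact lt_irrefl _ h1
  obtain ⟨W₀, hW₀, hΓW₀, hnear₀⟩ := nearI (k := k) (m := m) (M := Rt.card)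
    (fun i => MvPolynomial.map φ (G i))
    (fun i => by
      obtain ⟨e, he⟩ := hG i
      exact ⟨e, he.map _⟩)
    (fun i => MvPolynomial.map φ (A i)) (fun i => MvPolynomial.map φ (B i)) δ
    (fun i => (hA i).map _) (fun i => (hB i).map _)
    (fun i => (R i).map φ) (fun i => φ (c i)) ρt hc0
    (fun l I hI y h1 h2 => by
      by_contra h0
      obtain ⟨l', hl'⟩ := (hRt _).1 (hρ' l)
      obtain ⟨i, hi, h3⟩ := hpos l' _ ((hD' _ _).1 hl') I hI y ⟨h0, fun i => by
        have h4 := h1 i
        rw [hspec] at h4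
        exact h4⟩
      apply h3
      have h4 := h2 i hi
      rw [hspec, hspec] at h4
      exact h4)
    Γ' (Set.toFinite _)
  -- the finite set of coefficients, with the degenerate parameters
  let W : Finset k := hW₀.toFinset ∪ Rt
  have hW₀W : ∀ z ∈ W₀, z ∈ (W : Set k) := by
    intro z hz
    simp only [W, Finset.coe_union, Set.mem_union, Finset.mem_coe, Set.Finite.mem_toFinset]
    exact Or.inl hz
  have hRtW : ∀ z ∈ Rt, z ∈ (W : Set k) := by
    intro z hz
    simp only [W, Finset.coe_union, Set.mem_union, Finset.mem_coe]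
    exact Or.inr hz
  have hnear : ∀ V : ValuationSubring ℂ, (∀ z ∈ (W : Set k), algebraMap k ℂ z ∈ V) → _ :=
    fun V hV => hnear₀ V fun z hz => hV z (hW₀W z hz)
  have hRk : ∀ i, ((R i).map φ).Monic := fun i => (hR i).map _
  have hTk : ∀ i u w, (((R i).map φ).coeff u).coeff w ≠ 0 → u ≤ T ∧ w ≤ T := by
    intro i u w h0
    rw [Polynomial.coeff_map] at h0
    change ((Polynomial.mapRingHom (algebraMap K k)) ((R i).coeff u)).coeff w ≠ 0 at h0
    rw [Polynomial.coe_mapRingHom, Polynomial.coeff_map] at h0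
    exact hT i u w fun h1 => h0 (by rw [h1, map_zero])
  have hΓV : ∀ V : ValuationSubring ℂ, (∀ z ∈ (W : Set k), algebraMap k ℂ z ∈ V) →
      ∀ z ∈ Γ', algebraMap k ℂ z ∈ V := fun V hV z hz => hV z (hW₀W z (hΓW₀ hz))
  -- the core
  have core1 : ∀ (t : k), t ∉ Rt → (∃ f : Fin (L1 n m + L2 k₀ m + 1) → Fin M,
      Function.Injective f ∧ ∀ l, ∃ a ∈ D' (f l), ¬ Bad (W : Set k) t a) →
      NoAtypical (algebraMap (Algebra.adjoin ℤ (Γ : Set ℂ)) ℂ) K m
        (scaledImage (algebraMap k ℂ t) G A B R c) := by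
    rintro t htR ⟨f, hf, hp⟩ r Z Mu η hη
    have hηint : ∀ j, IsIntegral (Algebra.adjoin ℤ (algebraMap k ℂ '' Γ')) (η j) ∧
        IsIntegral (Algebra.adjoin ℤ (algebraMap k ℂ '' Γ')) (η j)⁻¹ := by
      intro j
      rw [hΓ']
      exact ⟨(hη j).2.1, (hη j).2.2⟩
    have hpt : ∀ x ∈ scaledImage (algebraMap k ℂ t) G A B R c,
        (fun i => x (Sum.inl i)) ∈ Z.locus → (fun j => x (Sum.inr j)) ∈ coset Mu η →
        ∀ S : Finset (Fin n ⊕ Fin k₀), AlgebraicIndependent K (fun i : S => x i) →
        S.card + n + Module.finrank ℤ Mu ≤ r + m := by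
      rintro x ⟨hx0, y, hy, ⟨s, hxy⟩, hxy2⟩ hxZ hxC S hS
      have hSk : AlgebraicIndependent k (fun i : S => x i) := hS.extendScalars k
      have hplace : ∀ l, ∃ (V : ValuationSubring ℂ) (α : k), α ∈ D' (f l) ∧
          V.valuation (algebraMap k ℂ (t - α)) < 1 ∧
          (∀ z ∈ (W : Set k), algebraMap k ℂ z ∈ V) ∧
          ∀ j : S, V.valuation (x j) = 1 := by
        intro l
        obtain ⟨a, ha, hbad⟩ := hp l
        have haR : a ∈ Rt := (hRt a).2 ⟨_, ha⟩
        have hta : t ≠ a := by
          intro h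
          rw [h] at htR
          exact htR haR
        obtain ⟨V, h1, h2, h3⟩ := exists_placeU (W : Set k) (hRtW a haR) hta hbad _ hSk
        exact ⟨V, a, ha, h1, h2, h3⟩
      choose V α hα hV1 hVW hVx using hplace
      have h1 : ∀ i, Z.cls i = none →
          IsIntegral (Algebra.adjoin ℤ (algebraMap k ℂ '' Γ')) (x (Sum.inl i)) := by
        intro i hi
        obtain ⟨z, hz⟩ := hxZ
        have h2 : x (Sum.inl i) = Z.const i := (hz i).1 hi
        rw [hΓ', h2]
        rcases Z.allowed i with ⟨τ, hτ, hc⟩ | h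
        · rw [hc]
          exact (singular_modulus_integral τ hτ).tower_top
        · exact h
      have h2 : ∀ i, Polynomial.eval₂
          (Polynomial.aeval (x (Sum.inl i)) : Polynomial k →ₐ[k] ℂ).toRingHom (s i)
          ((R i).map φ) = 0 := by
        intro i
        rw [Polynomial.eval₂_map]
        have h1 : ((Polynomial.aeval (x (Sum.inl i)) : Polynomial k →ₐ[k] ℂ).toRingHom).comp φ =
            (Polynomial.aeval (x (Sum.inl i)) : Polynomial K →ₐ[K] ℂ).toRingHom := by
          ext z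
          · simp [φ]
          · simp [φ]
        rw [h1]
        exact (hxy i).1
      have hcev : ∀ i, algebraMap k ℂ ((φ (c i)).eval t) =
          evalAt K (algebraMap k ℂ t) (c i) := by
        intro i
        rw [← hev t]
        rfl
      -- the coordinates which are compared with the quotients
      let sx : Fin n ⊕ Fin k₀ → ℂ := Sum.elim s fun j => x (Sum.inr j)
      have h4 : ∀ i, algebraMap k ℂ ((φ (c i)).eval t) *
          aeval y (TH526.ZL.spec t (MvPolynomial.map φ (B i))) * sx i =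
          aeval y (TH526.ZL.spec t (MvPolynomial.map φ (A i))) := by
        rintro (i | j)
        · rw [hspec, hspec, hcev]
          exact (hxy i).2
        · rw [hspec, hspec, hcev]
          exact hxy2 j
      have htα : ∀ l, (V l).valuation (algebraMap k ℂ (t - α l)) ≠ 0 := by
        intro l h0
        have h5 : algebraMap k ℂ (t - α l) = 0 := (map_eq_zero _).1 h0
        have h6 : t - α l = 0 := (map_eq_zero _).1 h5
        exact htR ((hRt t).2 ⟨f l, (sub_eq_zero.1 h6) ▸ hα l⟩)
      refine coreME (Λ := k) (F := k) (m := m) (T := T) (fun i => (R i).map φ) hRk hTk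
        (fun l i => (φ (c i)).rootMultiplicity (α l))
        (fun l i => by
          rw [hmult]
          exact hind.1 (f l) _ ((hD' _ _).1 (hα l)) i)
        (fun f' hf' A' hA0 hA1 hA2 q hq hqp hqT => by
          have h5 := hind.2.1 (fun l => f (f' l)) (fun l => algebraMap k ℂ (α (f' l)))
            (hf.comp hf') (fun l => (hD' _ _).1 (hα (f' l))) A' hA0 hA1 hA2 q hq hqp hqT
          simp only [hmult]
          exact h5)
        (fun u b hu hb => by
          refine hind.2.2 (u.map ⟨f, hf⟩)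
            (Function.extend f (fun l => algebraMap k ℂ (α l)) (fun _ => 0)) b ?_
            (by rw [Finset.card_map]; exact hu) ?_
          · intro l hl
            obtain ⟨l', hl', rfl⟩ := Finset.mem_map.1 hl
            simp only [Function.Embedding.coeFn_mk]
            rw [hf.extend_apply]
            exact (hD' _ _).1 (hα l')
          · intro l hl
            obtain ⟨l', hl', rfl⟩ := Finset.mem_map.1 hl
            have h5 := hb l' hl'
            simp only [hmult] at h5
            simp only [Function.Embedding.coeFn_mk]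
            rw [hf.extend_apply]
            exact h5)
        Z.cls (fun i => (Z.mat i).det.toNat) x s Mu η
        (fun i => by
          have := Z.det_pos i
          omega)
        (fun i hi => alg_of_int Γ' (h1 i hi)) (fun i j l hi hj => by
          have h5 := rel_of_locus Z hxZ i j l hi hj
          rw [toNat_mul' (Z.det_pos i) (Z.det_pos j)] at h5
          exact h5)
        h2 hx0 (fun j => ?_) hxC.2 S hSk hSk V
        (fun l => (V l).valuation (algebraMap k ℂ (t - α l)))
        htα hV1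
        (fun l i hi => v_le_of_int Γ' (V l) (hΓV _ (hVW l)) (h1 i hi))
        (fun l => (hnear (V l) (hVW l)).1) hVx (fun l j => ?_) (fun l => ?_)
      · have h5 : IsAlgebraic k (η j) := alg_of_int Γ' (hηint j).1
        have h6 : IsAlgebraic K (η j) := by
          have : Algebra.IsAlgebraic K k := hcl.isAlgebraic
          exact h5.restrictScalars K
        exact ⟨⟨η j, mem_algebraicClosure_iff.2 h6⟩, rfl⟩
      · refine le_antisymm (v_le_of_int Γ' (V l) (hΓV _ (hVW l)) (hηint j).1) ?_
        have h5 := v_le_of_int Γ' (V l) (hΓV _ (hVW l)) (hηint j).2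
        rw [map_inv₀] at h5
        have h6 : (V l).valuation (η j) ≠ 0 := (Valuation.ne_zero_iff _).2 (hη j).1
        exact (inv_le_one₀ (zero_lt_iff.2 h6)).1 h5
      · obtain ⟨l', hl'⟩ := hρ (α l) ((hRt (α l)).2 ⟨f l, hα l⟩)
        obtain ⟨E, hE, hE'⟩ := (hnear (V l) (hVW l)).2 l' t (by rw [hl']; exact hV1 l) sx y hy.1
          (fun i => by
            rw [hspec]
            exact hy.2 i) h4
        rw [hl'] at hE'
        exact ⟨E, hE, fun i hi => hE' _ hi, fun j hj => hE' _ hj⟩
    refine ⟨?_, hpt⟩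
    intro W' hW' hcl' hprime
    obtain ⟨w, hw⟩ := nonempty_of_prime hprime
    obtain ⟨x, hxW, hx0, T', hT', hdim⟩ := Pool.Agent.W282.SI.generic_dim' K W' hprime
      (β := Fin k₀) (fun j => X (Sum.inr j)) (by
        intro j hj
        rw [mem_idealOf] at hj
        have h2 := hj w hw
        rw [eval_X] at h2
        exact (hW' hw).1.1 j h2)
    have hxA : x ∈ W' := hcl' x hxW fun j => by
      have h2 := hx0 j
      rwa [eval_X] at h2
    have h2 := hpt x (hW' hxA).1 (hW' hxA).2.1 (hW' hxA).2.2 T' hT'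
    calc zdim W' + (n : Cardinal) + (Module.finrank ℤ Mu : Cardinal) ≤
          (T'.card : Cardinal) + (n : Cardinal) + (Module.finrank ℤ Mu : Cardinal) := by gcongr
      _ = ((T'.card + n + Module.finrank ℤ Mu : ℕ) : Cardinal) := by push_cast; rfl
      _ ≤ ((r + m : ℕ) : Cardinal) := by exact_mod_cast h2
      _ = (r : Cardinal) + (m : Cardinal) := by push_cast; rfl
  -- the parameters lie in the algebraic closure
  have hfield : ∀ t ∈ Subfield.closure (F : Set ℂ), ∃ t' : k,
      t' ∈ Subfield.closure (F' : Set k) ∧ algebraMap k ℂ t' = t := by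
    intro t ht
    rw [← hF', ← RingHom.map_field_closure] at ht
    exact Subfield.mem_map.1 ht
  have hring : ∀ t ∈ Subring.closure (F : Set ℂ), ∃ t' : k,
      t' ∈ Subring.closure (F' : Set k) ∧ algebraMap k ℂ t' = t := by
    intro t ht
    rw [← hF', ← RingHom.map_closure] at ht
    exact Subring.mem_map.1 ht
  have hRtfin : ((algebraMap k ℂ) '' (Rt : Set k)).Finite := Rt.finite_toSet.image _
  refine ⟨fun hM => ?_, fun hM => ?_, fun hM => ?_⟩
  · have h1 := finite_field (L := L1 n m + L2 k₀ m) W F' D'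
      (fun I hI => (hcard I).symm ▸ hM I hI)
      {t : k | t ∉ Rt ∧ ¬ NoAtypical (algebraMap (Algebra.adjoin ℤ (Γ : Set ℂ)) ℂ) K m
        (scaledImage (algebraMap k ℂ t) G A B R c)} (fun t ht h => ht.2 (core1 t ht.1 h))
    refine (hRtfin.union (h1.image (algebraMap k ℂ))).subset ?_
    rintro t ⟨ht, ht'⟩
    obtain ⟨t', ht1, rfl⟩ := hfield t ht
    by_cases htR : t' ∈ Rt
    · exact Or.inl ⟨t', htR, rfl⟩
    · exact Or.inr ⟨t', ⟨ht1, htR, ht'⟩, rfl⟩
  · have h1 := finite_ring (L := L1 n m + L2 k₀ m) W F' D'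
      (fun I hI => (hcard I).symm ▸ hM I hI)
      {t : k | t ∉ Rt ∧ ¬ NoAtypical (algebraMap (Algebra.adjoin ℤ (Γ : Set ℂ)) ℂ) K m
        (scaledImage (algebraMap k ℂ t) G A B R c)} (fun t ht h => ht.2 (core1 t ht.1 h))
    refine (hRtfin.union (h1.image (algebraMap k ℂ))).subset ?_
    rintro t ⟨ht, ht'⟩
    obtain ⟨t', ht1, rfl⟩ := hring t ht
    by_cases htR : t' ∈ Rt
    · exact Or.inl ⟨t', htR, rfl⟩
    · exact Or.inr ⟨t', ⟨ht1, htR, ht'⟩, rfl⟩
  · have h1 := finite_units (L := L1 n m + L2 k₀ m) W F' D'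
      (fun I hI => by
        obtain ⟨a, ha, ha0⟩ := hM I hI
        obtain ⟨l, hl, hal⟩ := Finset.mem_biUnion.1 ha
        have h2 : a ∈ algebraMap k ℂ '' (D' l : Set k) := by
          rw [hD'im]
          exact hal
        obtain ⟨a', ha', rfl⟩ := h2
        exact ⟨a', Finset.mem_biUnion.2 ⟨l, hl, ha'⟩, fun h => ha0 (by rw [h, map_zero])⟩)
      {t : k | t ∉ Rt ∧ ¬ NoAtypical (algebraMap (Algebra.adjoin ℤ (Γ : Set ℂ)) ℂ) K m
        (scaledImage (algebraMap k ℂ t) G A B R c)} (fun t ht h => ht.2 (core1 t ht.1 h))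
    refine (hRtfin.union (h1.image (algebraMap k ℂ))).subset ?_
    rintro t ⟨⟨ht, ht0, hti⟩, ht'⟩
    obtain ⟨t', ht1, rfl⟩ := hring t ht
    obtain ⟨t'', ht2, he⟩ := hring _ hti
    have ht0' : t' ≠ 0 := fun h => ht0 (by rw [h, map_zero])
    have he' : t'' = t'⁻¹ := (algebraMap k ℂ).injective (by rw [he, map_inv₀])
    rw [he'] at ht2
    by_cases htR : t' ∈ Rt
    · exact Or.inl ⟨t', htR, rfl⟩
    · exact Or.inr ⟨t', ⟨⟨ht1, ht0', ht2⟩, htR, ht'⟩, rfl⟩

end Pool.Agent.R424.FD
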