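import Pool.Agent.TH526.ZL.I
import Pool.Agent.TH526.ZL.J
import Pool.Agent.R424.FD.Crit

/-!
Scaling vectors which are spread out at `L + 1` primes (helper file, adapted from
`Pool.Agent.TH526.ZL.I` and `Pool.Agent.TH526.ZL.J`).
-/

set_option autoImplicit false

open Function UpperHalfPlane H294ZP MvPolynomial

namespace Pool.Agent.R424.FD

open Pool.Agent.W466.ZC Pool.Agent.TH526.ZL

/-- The vector `c` is spread out above `D`. -/
def SpreadE {n : ℕ} (L T D : ℕ) (c : Fin n → ℕ) : Prop :=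
  ∃ p : Fin (L + 1) → ℕ, (∀ l, (p l).Prime ∧ D < p l) ∧
    (∀ l i, 0 < (c i).factorization (p l)) ∧ Indep L T fun l i => (c i).factorization (p l)

theorem indep_mul {L T : ℕ} {σ : Type} [DecidableEq σ] {a : Fin (L + 1) → σ → ℕ}
    (ha : Indep L T a) (v : Fin (L + 1) → ℕ) (hv : ∀ l, 0 < v l) :
    Indep L T fun l i => a l i * v l := by
  intro A hA0 hA1 hA2 q hq hqp hqT hsq
  refine ha A hA0 hA1 hA2 q hq hqp hqT ?_
  have h1 : q * ∏ l, ∏ i ∈ A l, (a l i * v l) =
      (∏ l, v l ^ (A l).card) * (q * ∏ l, ∏ i ∈ A l, a l i) := by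
    rw [mul_left_comm, ← Finset.prod_mul_distrib]
    congr 1
    refine Finset.prod_congr rfl fun l _ => ?_
    rw [← Finset.prod_const, ← Finset.prod_mul_distrib]
    refine Finset.prod_congr rfl fun i _ => ?_
    rw [mul_comm]
  rw [h1] at hsq
  refine isSquare_cancel ?_ ?_ hsq
  · exact Finset.prod_pos fun l _ => pow_pos (hv l) _
  · exact Finset.isSquare_prod _ fun l _ => (hA1 l).isSquare_pow _

theorem spreadE_of {n L T D k : ℕ} (hk : 1 ≤ k) (a : Fin (L + 1) → Fin n → ℕ)
    (ha0 : ∀ l i, 0 < a l i) (ha : Indep L T a)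
    (h : ∀ l : Fin (L + 1), ∃ p, p.Prime ∧ p ∣ k + l ∧ D + (L + 1) < p) :
    SpreadE L T D (famL (L + 1) a k) := by
  classical
  choose p hp hpk hpD using h
  have hfac : ∀ l i, (famL (L + 1) a k i).factorization (p l) =
      a l i * (k + l).factorization (p l) := by
    intro l i
    rw [famL, Nat.factorization_prod (fun l' _ => pow_ne_zero _ (by omega))]
    simp only [Finsupp.coe_finsetSum, Finset.sum_apply]
    rw [Finset.sum_eq_single l]
    · rw [Nat.factorization_pow]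
      rfl
    · intro l' _ hne
      rw [Nat.factorization_pow]
      have h1 : ¬ p l ∣ k + l' := by
        intro hd
        have h2 := hpk l
        have h3 : (p l : ℤ) ∣ ((k + l : ℕ) : ℤ) - ((k + l' : ℕ) : ℤ) :=
          dvd_sub (Int.natCast_dvd_natCast.2 h2) (Int.natCast_dvd_natCast.2 hd)
        have h4 : ((k + l : ℕ) : ℤ) - ((k + l' : ℕ) : ℤ) = (l : ℤ) - (l' : ℤ) := by
          push_cast
          ring
        rw [h4] at h3
        have h5 : (l : ℤ) - (l' : ℤ) ≠ 0 := by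
          intro h0
          apply hne
          apply Fin.ext
          omega
        have h6 := Int.le_of_dvd (abs_pos.2 h5) ((dvd_abs _ _).2 h3)
        have h7 := hpD l
        have h9 := l.2
        have h10 := l'.2
        have h8 : |(l : ℤ) - (l' : ℤ)| ≤ L + 1 := by
          rw [abs_le]
          constructor <;> omega
        omega
      show a l' i * (k + l').factorization (p l) = 0
      rw [Nat.factorization_eq_zero_of_not_dvd h1, mul_zero]
    · intro hl
      exact absurd (Finset.mem_univ l) hl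
  have hpos : ∀ l : Fin (L + 1), 0 < (k + l).factorization (p l) := fun l =>
    (hp l).factorization_pos_of_dvd (by omega) (hpk l)
  refine ⟨p, fun l => ⟨hp l, by have := hpD l; omega⟩, fun l i => ?_, ?_⟩
  · rw [hfac]
    exact Nat.mul_pos (ha0 l i) (hpos l)
  · have h1 := indep_mul ha (fun l => (k + l).factorization (p l)) hpos
    simp only [hfac]
    exact h1

theorem countE {n L T : ℕ} (D : ℕ) (a : Fin (L + 1) → Fin n → ℕ)
    (ha0 : ∀ l i, 0 < a l i) (ha : Indep L T a) (H : ℕ) :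
    Set.ncard {k : ℕ | 1 ≤ k ∧ k ≤ H ∧ ¬ SpreadE L T D (famL (L + 1) a k)} ≤
      (L + 1) * (Nat.log 2 (H + (L + 1)) + 1) ^ (D + (L + 1) + 1) := by
  classical
  let S : Finset ℕ := (Finset.Icc 1 (H + (L + 1))).filter
    fun m => ∀ p, p.Prime → p ∣ m → p ≤ D + (L + 1)
  have hsub : {k : ℕ | 1 ≤ k ∧ k ≤ H ∧ ¬ SpreadE L T D (famL (L + 1) a k)} ⊆
      (((Finset.univ : Finset (Fin (L + 1))).biUnion fun l =>
        S.image fun m => m - (l : ℕ)) : Finset ℕ) := by
    rintro k ⟨hk1, hk2, hk3⟩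
    have h1 : ∃ l : Fin (L + 1), ∀ p, p.Prime → p ∣ k + l → p ≤ D + (L + 1) := by
      by_contra hcon
      push Not at hcon
      apply hk3
      refine spreadE_of hk1 a ha0 ha fun l => ?_
      obtain ⟨p, h2, h3, h4⟩ := hcon l
      exact ⟨p, h2, h3, h4⟩
    obtain ⟨l, hl⟩ := h1
    rw [Finset.mem_coe, Finset.mem_biUnion]
    refine ⟨l, Finset.mem_univ l, ?_⟩
    rw [Finset.mem_image]
    have h9 := l.2
    refine ⟨k + l, ?_, by omega⟩
    rw [Finset.mem_filter, Finset.mem_Icc]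
    exact ⟨⟨by omega, by omega⟩, hl⟩
  refine (Set.ncard_le_ncard hsub (Finset.finite_toSet _)).trans ?_
  rw [Set.ncard_coe_finset]
  refine Finset.card_biUnion_le.trans ?_
  have h2 : ∀ l ∈ (Finset.univ : Finset (Fin (L + 1))), (S.image fun m => m - (l : ℕ)).card ≤
      (Nat.log 2 (H + (L + 1)) + 1) ^ (D + (L + 1) + 1) := fun l _ =>
    Finset.card_image_le.trans (smooth_card (D + (L + 1)) (H + (L + 1)))
  refine (Finset.sum_le_sum h2).trans ?_
  rw [Finset.sum_const, Finset.card_univ, Fintype.card_fin, smul_eq_mul]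

theorem exists_classE (n L T D : ℕ) : ∃ (Q : ℕ) (g : Fin n → ℕ), 0 < Q ∧
    (∀ i, 0 < g i ∧ g i ≤ Q) ∧
    ∀ c : Fin n → ℕ, (∀ i, ∃ t, c i = g i + Q * t) → SpreadE L T D c := by
  classical
  have hinf : {p : ℕ | p.Prime ∧ D < p}.Infinite := by
    rw [Set.infinite_iff_exists_gt]
    intro a
    obtain ⟨p, hp1, hp2⟩ := Nat.exists_infinite_primes (a + D + 1)
    exact ⟨p, ⟨hp2, by omega⟩, by omega⟩
  let emb := hinf.natEmbedding
  let p : Fin (L + 1) → ℕ := fun l => (emb l : ℕ)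
  have hp : ∀ l, (p l).Prime ∧ D < p l := fun l => (emb l).2
  have hpinj : ∀ l l', l ≠ l' → p l ≠ p l' := by
    intro l l' hll h
    apply hll
    apply Fin.ext
    exact emb.injective (Subtype.ext h)
  obtain ⟨e, heprime, heinj⟩ := exists_primes n T
  let g : Fin n → ℕ := fun i => ∏ l : Fin (L + 1), p l ^ e l i
  have hg0 : ∀ i, 0 < g i := fun i => Finset.prod_pos fun l _ => pow_pos (hp l).1.pos _
  have hgfac : ∀ l i, (g i).factorization (p l) = e l i := by
    intro l i
    rw [show g i = ∏ l : Fin (L + 1), p l ^ e l i from rfl,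
      Nat.factorization_prod (fun l' _ => pow_ne_zero _ (hp l').1.ne_zero)]
    simp only [Finsupp.coe_finsetSum, Finset.sum_apply]
    rw [Finset.sum_eq_single l]
    · rw [(hp l).1.factorization_pow, Finsupp.single_eq_same]
    · intro l' _ hne
      rw [(hp l').1.factorization_pow, Finsupp.single_eq_of_ne (hpinj l l' hne.symm)]
    · intro hl
      exact absurd (Finset.mem_univ l) hl
  let Q : ℕ := (∏ l : Fin (L + 1), p l) * ∏ i, g i
  have hQ0 : 0 < Q := Nat.mul_pos (Finset.prod_pos fun l _ => (hp l).1.pos)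
    (Finset.prod_pos fun i _ => hg0 i)
  have hQ : ∀ l i, ∃ s, Q = g i * (p l * s) := by
    intro l i
    obtain ⟨s1, h1⟩ := Finset.dvd_prod_of_mem p (Finset.mem_univ l)
    obtain ⟨s2, h2⟩ := Finset.dvd_prod_of_mem g (Finset.mem_univ i)
    refine ⟨s1 * s2, ?_⟩
    show (∏ l : Fin (L + 1), p l) * ∏ i, g i = _
    rw [h1, h2]
    ring
  refine ⟨Q, g, hQ0, fun i => ⟨hg0 i, ?_⟩, fun c hc => ⟨p, hp, ?_⟩⟩
  · obtain ⟨s, hs⟩ := hQ 0 i
    exact Nat.le_of_dvd hQ0 ⟨_, hs⟩
  · have hcf : ∀ l i, (c i).factorization (p l) = e l i := by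
      intro l i
      obtain ⟨t, ht⟩ := hc i
      obtain ⟨s, hs⟩ := hQ l i
      have h1 : c i = g i * (1 + p l * (s * t)) := by
        rw [ht, hs]
        ring
      rw [h1, Nat.factorization_mul (hg0 i).ne' (by omega), Finsupp.add_apply, hgfac]
      have h2 : ¬ p l ∣ 1 + p l * (s * t) := by
        intro hd
        have h3 : p l ∣ 1 := (Nat.dvd_add_left (Dvd.intro _ rfl)).1 hd
        exact (hp l).1.one_lt.ne' (Nat.dvd_one.1 h3)
      rw [Nat.factorization_eq_zero_of_not_dvd h2, add_zero]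
    refine ⟨fun l i => ?_, ?_⟩
    · rw [hcf]
      exact (heprime l i).1.pos
    · simp only [hcf]
      refine indep_of_primes (fun l i => e l i) (fun l i => (heprime l i).1.ne_zero)
        (fun l i => e l i) (fun l i => (heprime l i).1) (fun l i => (heprime l i).2)
        (fun l i => ?_) (fun l i l' i' hne => ?_)
      · rw [(heprime l i).1.factorization_self]
        exact odd_one
      · rw [(heprime l' i').1.factorization, Finsupp.single_apply, if_neg]
        · exact Even.zero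
        · intro h
          apply hne
          obtain ⟨h1, h2⟩ := heinj _ _ _ _ h
          rw [h2, Fin.ext h1]

/-- A positive proportion of all vectors is spread out. -/
theorem propE (n L T D : ℕ) : ∃ δ : ℝ, 0 < δ ∧ ∃ H₀ : ℕ, ∀ H : ℕ, H₀ ≤ H →
    δ * (H : ℝ) ^ n ≤
      (Set.ncard {c : Fin n → ℕ | (∀ i, 1 ≤ c i ∧ c i ≤ H) ∧ SpreadE L T D c} : ℝ) := by
  classical
  obtain ⟨Q, g, hQ0, hg, hmain⟩ := exists_classE n L T D
  have hQr : (0 : ℝ) < Q := by exact_mod_cast hQ0
  refine ⟨(1 / (2 * (Q : ℝ))) ^ n, by positivity, Q, fun H hH => ?_⟩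
  let T' := H / Q
  let f : (Fin n → Fin T') → (Fin n → ℕ) := fun t i => g i + Q * (t i : ℕ)
  have hfinj : Function.Injective f := by
    intro t t' h
    funext i
    have h1 : g i + Q * (t i : ℕ) = g i + Q * (t' i : ℕ) := congrFun h i
    have h2 : Q * (t i : ℕ) = Q * (t' i : ℕ) := by omega
    exact Fin.ext (Nat.eq_of_mul_eq_mul_left hQ0 h2)
  have hfin : {c : Fin n → ℕ | (∀ i, 1 ≤ c i ∧ c i ≤ H) ∧ SpreadE L T D c}.Finite := by
    refine (Set.Finite.pi fun _ : Fin n => Set.finite_Icc 1 H).subset ?_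
    rintro c ⟨hc, -⟩ i -
    exact Set.mem_Icc.2 (hc i)
  have hsub : Set.range f ⊆ {c : Fin n → ℕ | (∀ i, 1 ≤ c i ∧ c i ≤ H) ∧ SpreadE L T D c} := by
    rintro _ ⟨t, rfl⟩
    refine ⟨fun i => ⟨?_, ?_⟩, hmain _ fun i => ⟨t i, rfl⟩⟩
    · have := (hg i).1
      show 1 ≤ g i + Q * (t i : ℕ)
      omega
    · have h1 := (hg i).2
      have h2 : (t i : ℕ) + 1 ≤ T' := (t i).2
      have h3 : Q * ((t i : ℕ) + 1) ≤ Q * T' := Nat.mul_le_mul_left _ h2
      have h4 : Q * T' ≤ H := Nat.mul_div_le H Q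
      show g i + Q * (t i : ℕ) ≤ H
      nlinarith
  have hcard : T' ^ n ≤ Set.ncard {c : Fin n → ℕ | (∀ i, 1 ≤ c i ∧ c i ≤ H) ∧
      SpreadE L T D c} := by
    have h1 := Set.ncard_le_ncard hsub hfin
    have h2 : (Set.range f).ncard = T' ^ n := by
      rw [← Set.image_univ, Set.ncard_image_of_injective _ hfinj, Set.ncard_univ,
        Nat.card_eq_fintype_card, Fintype.card_fun, Fintype.card_fin, Fintype.card_fin]
    rwa [h2] at h1
  have hT : (H : ℝ) / (2 * Q) ≤ T' := by
    have h1 : 1 ≤ T' := (Nat.one_le_div_iff hQ0).2 hH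
    have h2 : H < Q * (T' + 1) := Nat.lt_mul_div_succ H hQ0
    have h3 : (H : ℝ) < Q * (T' + 1) := by exact_mod_cast h2
    have h4 : (1 : ℝ) ≤ T' := by exact_mod_cast h1
    rw [div_le_iff₀ (by positivity)]
    nlinarith
  calc (1 / (2 * (Q : ℝ))) ^ n * (H : ℝ) ^ n = ((H : ℝ) / (2 * Q)) ^ n := by
        rw [← mul_pow]
        congr 1
        ring
    _ ≤ (T' : ℝ) ^ n := by
        have : (0 : ℝ) ≤ (H : ℝ) / (2 * Q) := by positivity
        gcongr
    _ ≤ _ := by exact_mod_cast hcard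

/-- The criterion for points of sets given by equations, at `L + 1` valuation rings. -/
theorem pointsV {Λ : Type} [CommRing Λ] [IsDomain Λ] [Algebra Λ ℂ]
    (hinj : Function.Injective (algebraMap Λ ℂ)) {n m L : ℕ}
    (R : Fin n → Polynomial (Polynomial Λ)) (hR : ∀ i, (R i).Monic) {T : ℕ}
    (hT : ∀ i u w, ((R i).coeff u).coeff w ≠ 0 → u ≤ T ∧ w ≤ T)
    (V : Fin (L + 1) → ValuationSubring ℂ) (g : ∀ l, (V l).ValueGroup) (hg : ∀ l, g l < 1)
    (hVR : ∀ l i u w, ((R i).coeff u).coeff w ≠ 0 →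
      (V l).valuation (algebraMap Λ ℂ (((R i).coeff u).coeff w)) = 1)
    (e : Fin (L + 1) → Fin n → ℕ) (he : ∀ l i, 0 < e l i) (hsq : Indep L T e)
    {r : ℕ} (hr : (L + 1) * m + L * r < L * n) (cls : Fin n → Option (Fin r)) (d : Fin n → ℕ)
    (x s : Fin n → ℂ) (hd : ∀ i, 0 < d i)
    (hconst : ∀ i, cls i = none → IsAlgebraic Λ (x i))
    (hVc : ∀ l i, cls i = none → (V l).valuation (x i) ≤ 1)
    (hrel : ∀ i j l, cls i = some l → cls j = some l →
        IsIntegral (Algebra.adjoin ℤ {x i}) (x j) ∧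
        Polynomial.eval₂ (Polynomial.aeval (x i) : Polynomial ℂ →ₐ[ℂ] ℂ).toRingHom (x j)
          (W282.ZP.Psi (d i * d j)) = 0)
    (hRs : ∀ i, Polynomial.eval₂ (Polynomial.aeval (x i) : Polynomial Λ →ₐ[Λ] ℂ).toRingHom (s i)
      (R i) = 0)
    (hbad : ∀ l (J : Finset (Fin n)), J.card = m + 1 → ∃ j ∈ J,
      (V l).valuation (s j) * g l ^ e l j = 1) : False := by
  classical
  have hS : AlgebraicIndependent Λ (fun i : ((∅ : Finset (Fin n)) : Finset (Fin n)) => x i) :=
    algebraicIndependent_empty_type_iff.2 hinj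
  have h1 := coreE (m := m) R hR hT e he hsq cls d x s hd hconst hrel hRs ∅ hS V g hg hVc hVR
    (fun l i => absurd i.2 (Finset.notMem_empty _)) (fun l => by
      refine ⟨Finset.univ.filter fun i => ¬ (V l).valuation (s i) * g l ^ e l i = 1, ?_, ?_⟩
      · by_contra h
        push Not at h
        obtain ⟨J, hJE, hJc⟩ := Finset.exists_subset_card_eq (Nat.succ_le_of_lt h)
        obtain ⟨j, hj, hj'⟩ := hbad l J hJc
        exact (Finset.mem_filter.1 (hJE hj)).2 hj'
      · intro i hi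
        rw [Finset.mem_filter] at hi
        push Not at hi
        exact hi (Finset.mem_univ i))
  rw [Finset.card_empty, zero_add] at h1
  omega

end Pool.Agent.R424.FD
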